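import Mathlib
import Pool.Graph.R_seed8.Y18.GX.Red

/-!
# Statements for the count of the Bernoulli numbers which are units at level `N`
-/

set_option autoImplicit false

namespace Pool.Agent.Helper85.GP

open Finset

/-- any `J` consecutive natural numbers contain one which is prime to `N` -/
def Jac (N J : ℕ) : Prop := ∀ a : ℕ, ∃ n : ℕ, a ≤ n ∧ n < a + J ∧ n.Coprime N

/-- every interval of length `R` contains `m + 1` numbers prime to `N` in different classes modulo `p` -/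
def Sam (N p m R : ℕ) : Prop :=
  ∀ a : ℕ, ∃ D : Finset ℕ, D.card = m + 1 ∧ (∀ b ∈ D, a ≤ b ∧ b < a + R ∧ b.Coprime N) ∧
    ∀ b ∈ D, ∀ b' ∈ D, b ≡ b' [MOD p] → b = b'

/-- the good numbers -/
def Good (N p m R Q : ℕ) : Prop :=
  0 < Q ∧ Q < N ∧ ∃ t v : ℕ, 2 ≤ v ∧ v.Coprime N ∧ t.Coprime N ∧ N ≤ Q * t ∧ Q * t < 2 * N ∧
    v ∣ Q * t - N ∧ Q * t < N + v * t ∧ R * v * Q ≤ N ∧ (m = 1 ∨ ¬ p ∣ (Q * t - N) / v)

/-- linear independence of the functions `b ↦ P({Q b / N})`, `Q ∈ S`, on the numbers prime to `N` -/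
def Indep {κ : Type} [Field κ] (P : Polynomial κ) (N : ℕ) (S : Finset ℕ) : Prop :=
  ∀ g : ℕ → κ, (∀ b : ℕ, b.Coprime N →
    ∑ Q ∈ S, g Q * P.eval (((Q * b % N : ℕ) : κ) / (N : κ)) = 0) → ∀ Q ∈ S, g Q = 0

def S_Core : Prop := ∀ (κ : Type) [Field κ] (p : ℕ) [CharP κ p] (N m R : ℕ), p.Prime → ¬ p ∣ N →
  1 ≤ m → m < p → Sam N p m R → ∀ (P : Polynomial κ) (u : κ), P.natDegree ≤ m → u ≠ 0 →
  (∀ x : κ, P.eval (x + 1) - P.eval x = u * x ^ (m - 1)) →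
  ∀ S : Finset ℕ, (∀ Q ∈ S, Good N p m R Q) → Indep P N S

/-- the inclusion-exclusion bound for the gaps between the numbers prime to `N` -/
def S_Jac : Prop := ∀ N : ℕ, N ≠ 0 →
  Jac N (2 ^ (N.primeFactors.card + 1) * (N.primeFactors.card + 1))

def S_Sam : Prop := ∀ N p m J : ℕ, p.Prime → ¬ p ∣ N → m < p → Jac N J → Sam N p m ((m + 1) * J ^ 2)

/-- `n_i = (⌈N/t⌉ + i) t - N` -/
def nn (N t i : ℕ) : ℕ := ((N + t - 1) / t + i) * t - N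

/-- the good `i < W` for given `t` -/
def Row (N p m t W i : ℕ) : Prop :=
  ∃ v : ℕ, v.Prime ∧ v ≤ W ∧ i < v ∧ v.Coprime N ∧ v ∣ nn N t i ∧ (m = 1 ∨ ¬ p ∣ nn N t i / v)

def S_Row : Prop := ∃ W₀ : ℕ, ∀ N p m R t W : ℕ, W₀ ≤ W → p.Prime → ¬ p ∣ N → N ≠ 0 → 1 ≤ R →
  256 * R ≤ W → (N.primeFactors.card + 1) ^ 2 ≤ W → t.Coprime N → 2 * R * W ≤ t → t < 4 * R * W →
  (m = 1 ∨ p ∣ t ∨ 24 * Real.log W ≤ p) →
  ∃ I : Finset ℕ, (∀ i ∈ I, i < W ∧ Row N p m t W i) ∧ (W : ℝ) / (10 * Real.log W) ≤ I.card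

def S_Tot : Prop := ∀ (N p m J R W d : ℕ) (ρ : ℝ), p.Prime → ¬ p ∣ N → 2 ≤ N → Jac N J → 1 ≤ R →
  1 ≤ W → (d = 1 ∨ d = p) → 4 * d * J ≤ 2 * R * W → 4 * (2 * R * W) ^ 2 * (W + 1) ≤ N * d → 0 ≤ ρ →
  (∀ t : ℕ, t.Coprime N → d ∣ t → 2 * R * W ≤ t → t < 4 * R * W →
    ∃ I : Finset ℕ, (∀ i ∈ I, i < W ∧ Row N p m t W i) ∧ ρ ≤ I.card) →
  ∃ S : Finset ℕ, (∀ Q ∈ S, Good N p m R Q) ∧ (R * W : ℝ) / (d * J) * ρ ≤ S.card

/-- the count of the good numbers -/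
def S_Cnt : Prop := ∃ c C : ℝ, 0 < c ∧ ∀ N p m : ℕ, p.Prime → ¬ p ∣ N → 2 ≤ N → 1 ≤ m → m < p →
  C * ((m : ℝ) ^ 5 * 2 ^ (20 * N.primeFactors.card)) ≤ N →
  ∃ (R : ℕ) (S : Finset ℕ), Sam N p m R ∧ (∀ Q ∈ S, Good N p m R Q) ∧
    c * (N : ℝ) ^ (2 / 3 : ℝ) /
      ((m : ℝ) ^ (1 / 3 : ℝ) * 2 ^ (4 * N.primeFactors.card) * Real.log N ^ (4 / 3 : ℝ)) ≤ S.card

/-- The generalized Bernoulli number `B_{m,ψ} = N^(m-1) ∑_{a=1}^N ψ(a) B_m(a/N)`. -/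
noncomputable def genBernoulli (m : ℕ) {N : ℕ} (ψ : DirichletCharacter ℂ N) : ℂ :=
  (N : ℂ) ^ (m - 1) * ∑ a ∈ Finset.Icc 1 N, ψ (a : ZMod N) *
    (((Polynomial.bernoulli m).eval ((a : ℚ) / N) : ℚ) : ℂ)

/-- the characters modulo `N` which are not trivial, for which `B_{m,ψ} / m` is a unit; `ψ` is replaced by the
primitive character -/
def unitSet (B : ValuationSubring ℂ) (N m : ℕ) : Set (DirichletCharacter ℂ N) :=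
  {ψ | ψ ≠ 1 ∧ ψ (-1) = (-1) ^ m ∧ B.valuation (genBernoulli m ψ.primitiveCharacter / m) = 1}

def S_Lin : Prop := ∀ (p N m : ℕ), p.Prime → ¬ p ∣ N * N.totient → 2 ≤ N → 1 ≤ m → m < p →
  ∀ B : ValuationSubring ℂ, B.valuation (p : ℂ) < 1 → ∀ S : Finset ℕ, (∀ Q ∈ S, 0 < Q ∧ Q < N) →
  Indep ((Pool.Agent.Y18.GX.FF m).map (Int.castRingHom (IsLocalRing.ResidueField B))) N S →
  S.card ≤ (unitSet B N m).ncard + 1

end Pool.Agent.Helper85.GP
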