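import Mathlib
import Pool.Agent.Helper85.GP.Def

/-!
# The gaps between the numbers prime to `N`, and the sampling sets
-/

set_option autoImplicit false

namespace Pool.Agent.Helper85.GP

open Finset

namespace JS

/-- the numbers in `[a, b)` not divisible by any element of `P` -/
def cop (P : Finset ℕ) (a b : ℕ) : Finset ℕ := (Ico a b).filter fun n => ∀ l ∈ P, ¬ l ∣ n

theorem prod_ge (P : Finset ℕ) : (∀ l ∈ P, 2 ≤ l) →
    (1 : ℝ) / (P.card + 1) ≤ ∏ l ∈ P, (1 - 1 / (l : ℝ)) := by
  induction P using Finset.induction_on_max with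
  | empty => intro _; simp
  | insert l s hl ih =>
    intro h
    have hs : ∀ x ∈ s, 2 ≤ x := fun x hx => h x (mem_insert_of_mem hx)
    have hls : l ∉ s := fun hx => lt_irrefl _ (hl l hx)
    rw [card_insert_of_notMem hls, prod_insert hls]
    have ih' := ih hs
    have hcard : s.card + 2 ≤ l := by
      have hsub : s ⊆ Ico 2 l := fun x hx => mem_Ico.2 ⟨hs x hx, hl x hx⟩
      have h1 := card_le_card hsub
      rw [Nat.card_Ico] at h1
      have h2 : 2 ≤ l := h l (mem_insert_self _ _)
      omega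
    have hcard' : ((s.card : ℝ) + 2) ≤ l := by exact_mod_cast hcard
    have hc0 : (0 : ℝ) ≤ s.card := Nat.cast_nonneg _
    have e1 : (1 : ℝ) - 1 / (s.card + 2) ≤ 1 - 1 / l := by
      have : (1 : ℝ) / l ≤ 1 / (s.card + 2) :=
        one_div_le_one_div_of_le (by linarith) hcard'
      linarith
    have e0 : (0 : ℝ) ≤ 1 - 1 / (s.card + 2) := by
      rw [sub_nonneg, div_le_one (by linarith)]; linarith
    calc (1 : ℝ) / ((s.card + 1 : ℕ) + 1) = (1 - 1 / (s.card + 2)) * (1 / (s.card + 1)) := by
          push_cast; field_simp; ring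
      _ ≤ (1 - 1 / l) * ∏ l ∈ s, (1 - 1 / (l : ℝ)) :=
          mul_le_mul e1 ih' (by positivity) (e0.trans e1)

theorem prod_le (P : Finset ℕ) (h : ∀ l ∈ P, 2 ≤ l) :
    0 ≤ ∏ l ∈ P, (1 - 1 / (l : ℝ)) ∧ ∏ l ∈ P, (1 - 1 / (l : ℝ)) ≤ 1 := by
  have h1 : ∀ l ∈ P, 0 ≤ (1 - 1 / (l : ℝ)) ∧ (1 - 1 / (l : ℝ)) ≤ 1 := by
    intro l hl
    have : (2 : ℝ) ≤ l := by exact_mod_cast h l hl
    constructor
    · rw [sub_nonneg, div_le_one (by linarith)]; linarith
    · have : 0 ≤ 1 / (l : ℝ) := by positivity
      linarith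
  exact ⟨prod_nonneg fun l hl => (h1 l hl).1,
    prod_le_one (fun l hl => (h1 l hl).1) fun l hl => (h1 l hl).2⟩

/-- the multiples of `l` -/
theorem ceil_bd {a b l : ℕ} (hl : 0 < l) (hab : a ≤ b) :
    (a + l - 1) / l ≤ (b + l - 1) / l ∧
    |((((b + l - 1) / l : ℕ) : ℝ) - ((a + l - 1) / l : ℕ)) - ((b : ℝ) - a) / l| ≤ 1 := by
  have key : ∀ c : ℕ, (c : ℝ) / l ≤ ((c + l - 1) / l : ℕ) ∧
      (((c + l - 1) / l : ℕ) : ℝ) ≤ ((c : ℝ) + l - 1) / l := by
    intro c
    have hl' : (0 : ℝ) < l := by exact_mod_cast hl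
    constructor
    · rw [div_le_iff₀ hl']
      have h1 := Nat.div_add_mod (c + l - 1) l
      have h2 := Nat.mod_lt (c + l - 1) hl
      have h3 : c ≤ (c + l - 1) / l * l := by
        rw [mul_comm]; omega
      exact_mod_cast h3
    · rw [le_div_iff₀ hl']
      have h3 : (c + l - 1) / l * l ≤ c + l - 1 := Nat.div_mul_le_self _ _
      have h4 : (((c + l - 1 : ℕ)) : ℝ) = (c : ℝ) + l - 1 := by
        rw [Nat.cast_sub (by omega)]; push_cast; ring
      rw [← h4]; exact_mod_cast h3
  have hl' : (0 : ℝ) < l := by exact_mod_cast hl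
  refine ⟨Nat.div_le_div_right (by omega), ?_⟩
  obtain ⟨a1, a2⟩ := key a
  obtain ⟨b1, b2⟩ := key b
  have e : ∀ c : ℝ, (c + l - 1) / l = c / l + 1 - 1 / l := by
    intro c; field_simp
  rw [e] at a2 b2
  have hp : 0 ≤ 1 / (l : ℝ) := by positivity
  rw [abs_le, sub_div]
  constructor <;> linarith

theorem count (P : Finset ℕ) : (∀ l ∈ P, l.Prime) → ∀ a b : ℕ, a ≤ b →
    |((cop P a b).card : ℝ) - ((b : ℝ) - a) * ∏ l ∈ P, (1 - 1 / (l : ℝ))| ≤ 2 ^ P.card - 1 := by
  induction P using Finset.induction_on with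
  | empty =>
    intro _ a b hab
    simp only [cop, notMem_empty, false_imp_iff, implies_true, filter_true, Nat.card_Ico,
      prod_empty, mul_one, card_empty, pow_zero, sub_self]
    rw [Nat.cast_sub hab, sub_self, abs_zero]
  | insert l s hls ih =>
    intro hP a b hab
    have hs : ∀ x ∈ s, x.Prime := fun x hx => hP x (mem_insert_of_mem hx)
    have hl : l.Prime := hP l (mem_insert_self _ _)
    obtain ⟨c1, c2⟩ := ceil_bd hl.pos hab
    set a' := (a + l - 1) / l with ha'
    set b' := (b + l - 1) / l with hb'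
    have i1 := ih hs a b hab
    have i2 := ih hs a' b' c1
    have hsplit : (cop s a b).card = (cop (insert l s) a b).card + (cop s a' b').card := by
      have h1 : (cop s a b) = (cop (insert l s) a b) ∪ (cop s a' b').image (fun n => l * n) := by
        ext n
        simp only [cop, mem_union, mem_filter, mem_Ico, mem_image, mem_insert, forall_eq_or_imp]
        constructor
        · rintro ⟨⟨h1, h2⟩, h3⟩
          by_cases hln : l ∣ n
          · right
            obtain ⟨k, rfl⟩ := hln
            refine ⟨k, ⟨⟨?_, ?_⟩, fun q hq hqk => h3 q hq (hqk.mul_left l)⟩, rfl⟩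
            · rw [ha']
              apply Nat.le_of_lt_succ
              rw [Nat.div_lt_iff_lt_mul hl.pos]
              have : (k.succ) * l = l * k + l := by rw [Nat.succ_mul, mul_comm]
              have := hl.pos
              omega
            · rw [hb']
              apply Nat.lt_of_succ_le
              rw [Nat.le_div_iff_mul_le hl.pos]
              have : (k.succ) * l = l * k + l := by rw [Nat.succ_mul, mul_comm]
              omega
          · exact Or.inl ⟨⟨h1, h2⟩, hln, h3⟩
        · rintro (⟨h1, _, h3⟩ | ⟨k, ⟨⟨h1, h2⟩, h3⟩, rfl⟩)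
          · exact ⟨h1, h3⟩
          · refine ⟨⟨?_, ?_⟩, ?_⟩
            · have h4 : a' < k.succ := Nat.lt_succ_of_le h1
              rw [ha', Nat.div_lt_iff_lt_mul hl.pos] at h4
              have : (k.succ) * l = l * k + l := by rw [Nat.succ_mul, mul_comm]
              have := hl.pos
              omega
            · have h4 : k.succ ≤ b' := Nat.succ_le_of_lt h2
              rw [hb', Nat.le_div_iff_mul_le hl.pos] at h4
              have : (k.succ) * l = l * k + l := by rw [Nat.succ_mul, mul_comm]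
              have := hl.pos
              omega
            · intro q hq hqd
              rcases (hs q hq).dvd_mul.1 hqd with h | h
              · have := (Nat.prime_dvd_prime_iff_eq (hs q hq) hl).1 h
                exact hls (this ▸ hq)
              · exact h3 q hq h
      have hdis : Disjoint (cop (insert l s) a b) ((cop s a' b').image (fun n => l * n)) := by
        rw [disjoint_left]
        intro n hn hn'
        simp only [cop, mem_filter, mem_insert, forall_eq_or_imp] at hn
        obtain ⟨k, _, rfl⟩ := mem_image.1 hn'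
        exact hn.2.1 (dvd_mul_right _ _)
      rw [h1, card_union_of_disjoint hdis, card_image_of_injective]
      intro x y hxy
      exact Nat.eq_of_mul_eq_mul_left hl.pos hxy
    have hl' : (0 : ℝ) < l := by exact_mod_cast hl.pos
    obtain ⟨p0, p1⟩ := prod_le s fun x hx => (hs x hx).two_le
    set Pr : ℝ := ∏ l ∈ s, (1 - 1 / (l : ℝ)) with hPr
    rw [prod_insert hls, card_insert_of_notMem hls, ← hPr]
    have hsp : ((cop (insert l s) a b).card : ℝ) = (cop s a b).card - (cop s a' b').card := by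
      rw [hsplit]; push_cast; ring
    rw [hsp]
    have h5 : |(((b' : ℝ) - a') - ((b : ℝ) - a) / l) * Pr| ≤ 1 := by
      rw [abs_mul, abs_of_nonneg p0]
      calc _ ≤ 1 * (1 : ℝ) := mul_le_mul c2 p1 p0 zero_le_one
        _ = 1 := one_mul 1
    have e : ((cop s a b).card : ℝ) - (cop s a' b').card - ((b : ℝ) - a) * ((1 - 1 / (l : ℝ)) * Pr) =
        (((cop s a b).card : ℝ) - ((b : ℝ) - a) * Pr) -
        (((cop s a' b').card : ℝ) - ((b' : ℝ) - a') * Pr) -
        (((b' : ℝ) - a') - ((b : ℝ) - a) / l) * Pr := by ring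
    rw [e]
    calc _ ≤ |((cop s a b).card : ℝ) - ((b : ℝ) - a) * Pr| +
          |((cop s a' b').card : ℝ) - ((b' : ℝ) - a') * Pr| +
          |(((b' : ℝ) - a') - ((b : ℝ) - a) / l) * Pr| := by
          refine (abs_sub _ _).trans (add_le_add (abs_sub _ _) le_rfl)
      _ ≤ (2 ^ s.card - 1) + (2 ^ s.card - 1) + 1 := add_le_add (add_le_add i1 i2) h5
      _ = _ := by rw [pow_succ]; ring

theorem coprime_iff {N n : ℕ} (hN : N ≠ 0) : n.Coprime N ↔ ∀ l ∈ N.primeFactors, ¬ l ∣ n := by
  constructor
  · intro h l hl hln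
    have hp := Nat.prime_of_mem_primeFactors hl
    have := Nat.dvd_gcd hln (Nat.dvd_of_mem_primeFactors hl)
    rw [h] at this
    exact hp.one_lt.ne' (Nat.dvd_one.1 this)
  · intro h
    by_contra hc
    obtain ⟨q, hq, h1, h2⟩ := Nat.Prime.not_coprime_iff_dvd.1 hc
    exact h q (Nat.mem_primeFactors.2 ⟨hq, h2, hN⟩) h1

theorem main1 : S_Jac := by
  intro N hN a
  set k := N.primeFactors.card with hk
  set L := 2 ^ (k + 1) * (k + 1) with hL
  have hP : ∀ l ∈ N.primeFactors, l.Prime := fun l hl => Nat.prime_of_mem_primeFactors hl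
  have h1 := count N.primeFactors hP a (a + L) (by omega)
  have h2 := prod_ge N.primeFactors fun l hl => (hP l hl).two_le
  rw [← hk] at h1 h2
  have h3 : (((a + L : ℕ) : ℝ) - a) = L := by push_cast; ring
  rw [h3] at h1
  have hL' : (L : ℝ) = 2 ^ (k + 1) * (k + 1) := by rw [hL]; push_cast; ring
  have h4 : (2 : ℝ) ^ (k + 1) ≤ L * ∏ l ∈ N.primeFactors, (1 - 1 / (l : ℝ)) := by
    calc (2 : ℝ) ^ (k + 1) = L * (1 / (k + 1)) := by rw [hL']; field_simp
      _ ≤ _ := mul_le_mul_of_nonneg_left h2 (by positivity)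
  have h5 : 0 < ((cop N.primeFactors a (a + L)).card : ℝ) := by
    have := (abs_le.1 h1).1
    have h6 : (2 : ℝ) ^ (k + 1) = 2 ^ k + 2 ^ k := by rw [pow_succ]; ring
    have h7 : (0 : ℝ) < 2 ^ k := by positivity
    linarith
  have h6 : 0 < (cop N.primeFactors a (a + L)).card := by exact_mod_cast h5
  obtain ⟨n, hn⟩ := card_pos.1 h6
  simp only [cop, mem_filter, mem_Ico] at hn
  exact ⟨n, hn.1.1, hn.1.2, (coprime_iff hN).2 hn.2⟩

theorem build {N p m R a : ℕ} (n : ℕ → ℕ) (h1 : ∀ i ≤ m, a ≤ n i ∧ n i < a + R ∧ (n i).Coprime N)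
    (h2 : ∀ i ≤ m, ∀ j ≤ m, n i ≡ n j [MOD p] → i = j) :
    ∃ D : Finset ℕ, D.card = m + 1 ∧ (∀ b ∈ D, a ≤ b ∧ b < a + R ∧ b.Coprime N) ∧
    ∀ b ∈ D, ∀ b' ∈ D, b ≡ b' [MOD p] → b = b' := by
  refine ⟨(range (m + 1)).image n, ?_, ?_, ?_⟩
  · rw [card_image_of_injOn, card_range]
    intro i hi j hj hij
    simp only [coe_range, Set.mem_Iio] at hi hj
    refine h2 i (by omega) j (by omega) ?_
    have : n i = n j := hij
    rw [this]
  · intro b hb
    obtain ⟨i, hi, rfl⟩ := mem_image.1 hb
    rw [mem_range] at hi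
    exact h1 i (by omega)
  · intro b hb b' hb' h
    obtain ⟨i, hi, rfl⟩ := mem_image.1 hb
    obtain ⟨j, hj, rfl⟩ := mem_image.1 hb'
    rw [mem_range] at hi hj
    rw [h2 i (by omega) j (by omega) h]

theorem main2 : S_Sam := by
  intro N p m J hp hpN hmp hJ a
  have hN : N ≠ 0 := fun h => hpN (h ▸ dvd_zero p)
  have hJ1 : 1 ≤ J := by
    obtain ⟨n, h1, h2, _⟩ := hJ 0
    omega
  have hJJ : J ≤ J ^ 2 := by nlinarith
  rcases le_or_gt ((m + 1) * J) p with hcase | hcase
  · choose f hf using fun i => hJ (a + i * J)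
    apply build f
    · intro i hi
      obtain ⟨h1, h2, h3⟩ := hf i
      refine ⟨by omega, ?_, h3⟩
      have h4 : (i + 1) * J ≤ (m + 1) * J := Nat.mul_le_mul_right _ (by omega)
      have h5 : (m + 1) * J ≤ (m + 1) * J ^ 2 := Nat.mul_le_mul_left _ hJJ
      have h6 : (i + 1) * J = i * J + J := by ring
      omega
    · have aux : ∀ i ≤ m, ∀ j ≤ m, i < j → ¬ f i ≡ f j [MOD p] := by
        intro i hi j hj hij h
        obtain ⟨h1, h2, h3⟩ := hf i
        obtain ⟨g1, g2, g3⟩ := hf j
        have h4 : (i + 1) * J ≤ j * J := Nat.mul_le_mul_right _ (by omega)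
        have h6 : (i + 1) * J = i * J + J := by ring
        have h7 : (j + 1) * J ≤ (m + 1) * J := Nat.mul_le_mul_right _ (by omega)
        have h8 : (j + 1) * J = j * J + J := by ring
        have hlt : f i < f j := by omega
        have hdv := (Nat.modEq_iff_dvd' hlt.le).1 h
        have := Nat.le_of_dvd (by omega) hdv
        omega
      intro i hi j hj h
      rcases lt_trichotomy i j with h1 | h1 | h1
      · exact absurd h (aux i hi j hj h1)
      · exact h1
      · exact absurd h.symm (aux j hj i hi h1)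
  · have hcop : p.Coprime N := (Nat.Prime.coprime_iff_not_dvd hp).2 hpN
    obtain ⟨q, hq⟩ : ∃ q : ℕ, p * q ≡ 1 [MOD N] := by
      rcases Nat.lt_or_ge 1 N with h1 | h1
      · obtain ⟨q, hq⟩ := Nat.exists_mul_mod_eq_one_of_coprime hcop h1
        exact ⟨q, by rw [Nat.ModEq, hq.2, Nat.mod_eq_of_lt h1]⟩
      · have : N = 1 := by omega
        exact ⟨0, by rw [this]; exact Nat.modEq_one⟩
    choose f hf using fun r => hJ (q * (a + r))
    have key : ∀ r, ∃ k < J, (a + r + p * k).Coprime N := by
      intro r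
      obtain ⟨h1, h2, h3⟩ := hf r
      refine ⟨f r - q * (a + r), by omega, ?_⟩
      have e1 : a + r + p * (f r - q * (a + r)) ≡ p * f r [MOD N] := by
        have e2 : f r = q * (a + r) + (f r - q * (a + r)) := by omega
        set k := f r - q * (a + r)
        rw [e2, mul_add, ← mul_assoc]
        apply Nat.ModEq.add_right
        have := hq.mul_right (a + r)
        rw [one_mul] at this
        exact this.symm
      have h4 : (p * f r).Coprime N := Nat.Coprime.mul_left hcop h3
      rw [Nat.Coprime, e1.gcd_eq]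
      exact h4
    choose k hk using key
    apply build fun r => a + r + p * k r
    · intro i hi
      obtain ⟨h1, h2⟩ := hk i
      refine ⟨by omega, ?_, h2⟩
      have h3 : p * k i + p ≤ p * J := by
        calc p * k i + p = p * (k i + 1) := by ring
          _ ≤ p * J := Nat.mul_le_mul_left _ h1
      have h4 : p * J ≤ (m + 1) * J ^ 2 := by
        calc p * J ≤ ((m + 1) * J) * J := Nat.mul_le_mul_right _ hcase.le
          _ = _ := by ring
      omega
    · intro i hi j hj h
      have h1 : a + i ≡ a + j [MOD p] := by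
        have e : ∀ r, a + r + p * k r ≡ a + r [MOD p] := fun r => by
          simp [Nat.ModEq]
        exact (e i).symm.trans (h.trans (e j))
      have h2 := Nat.ModEq.add_left_cancel' a h1
      rw [Nat.ModEq, Nat.mod_eq_of_lt (by omega), Nat.mod_eq_of_lt (by omega)] at h2
      exact h2

end JS

end Pool.Agent.Helper85.GP
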