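import Mathlib
import Pool.Agent.Helper85.GP.Jac

/-!
# The count of the good numbers
-/

set_option autoImplicit false

namespace Pool.Agent.Helper85.GP.Cnt

open Finset

lemma evt (W₀ : ℕ) : ∃ X₀ : ℝ, ∀ x : ℝ, X₀ ≤ x → 400 * Real.log x ≤ x ^ (1 / 5 : ℝ) ∧
    8 * (W₀ : ℝ) ≤ x ^ (1 / 5 : ℝ) ∧ 1 ≤ Real.log x := by
  have h1 := (isLittleO_log_rpow_atTop (r := 1 / 5) (by norm_num)).bound
    (show (0 : ℝ) < 1 / 400 by norm_num)
  have h2 := (tendsto_rpow_atTop (show (0 : ℝ) < 1 / 5 by norm_num)).eventually_ge_atTop (8 * (W₀ : ℝ))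
  have h3 := Real.tendsto_log_atTop.eventually_ge_atTop (1 : ℝ)
  have h4 := ((h1.and h2).and h3).and (Filter.eventually_ge_atTop (1 : ℝ))
  rw [Filter.eventually_atTop] at h4
  obtain ⟨X₀, h⟩ := h4
  refine ⟨X₀, fun x hx => ?_⟩
  obtain ⟨⟨⟨h5, h6⟩, h7⟩, h8⟩ := h x hx
  refine ⟨?_, h6, h7⟩
  rw [Real.norm_of_nonneg (by linarith), Real.norm_of_nonneg (by positivity)] at h5
  linarith

lemma J_le (k : ℕ) : 2 ^ (k + 1) * (k + 1) ≤ 2 ^ (2 * k + 1) := by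
  have h : k + 1 ≤ 2 ^ k := Nat.lt_two_pow_self
  calc 2 ^ (k + 1) * (k + 1) ≤ 2 ^ (k + 1) * 2 ^ k := Nat.mul_le_mul_left _ h
    _ = 2 ^ (2 * k + 1) := by rw [← pow_add]; congr 1; ring

set_option maxHeartbeats 2000000 in
theorem main (hRow : S_Row) (hTot : S_Tot) : S_Cnt := by
  obtain ⟨W₀, hRow⟩ := hRow
  obtain ⟨X₀, hX₀⟩ := evt W₀
  refine ⟨1 / 5000, max X₀ (2 ^ 47), by norm_num, fun N p m hp hpN hN hm hmp hsize => ?_⟩
  set k := N.primeFactors.card with hk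
  set J := 2 ^ (k + 1) * (k + 1) with hJ
  set R := (m + 1) * J ^ 2 with hR
  have hJac : Jac N J := JS.main1 N (by omega)
  have hSam : Sam N p m R := JS.main2 N p m J hp hpN hmp hJac
  have hJ1 : 1 ≤ J := by
    rw [hJ]; exact Nat.mul_pos (by positivity) (by omega)
  have hJle := J_le k
  rw [← hJ] at hJle
  have hm1 : (1 : ℝ) ≤ m := by exact_mod_cast hm
  have hJr1 : (1 : ℝ) ≤ J := by exact_mod_cast hJ1
  have hJr : (J : ℝ) ≤ 2 ^ (2 * k + 1) := by exact_mod_cast hJle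
  have hRr : (R : ℝ) = (m + 1) * (J : ℝ) ^ 2 := by rw [hR]; push_cast; ring
  have hJR : (J : ℝ) ≤ R := by
    rw [hRr]
    nlinarith
  have hR1 : (1 : ℝ) ≤ R := hJr1.trans hJR
  have hR1' : 1 ≤ R := by exact_mod_cast hR1
  -- the size of `R`
  set x : ℝ := (N : ℝ) with hx
  have ha1 : (1 : ℝ) ≤ (m : ℝ) ^ 5 * 2 ^ (20 * k) := by
    have h1 : (1 : ℝ) ≤ (m : ℝ) ^ 5 := one_le_pow₀ hm1
    have h2 : (1 : ℝ) ≤ 2 ^ (20 * k) := one_le_pow₀ (by norm_num)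
    nlinarith
  have hxX : X₀ ≤ x := by
    calc X₀ ≤ max X₀ (2 ^ 47) := le_max_left _ _
      _ = max X₀ (2 ^ 47) * 1 := (mul_one _).symm
      _ ≤ max X₀ (2 ^ 47) * ((m : ℝ) ^ 5 * 2 ^ (20 * k)) :=
          mul_le_mul_of_nonneg_left ha1 (le_trans (by positivity) (le_max_right _ _))
      _ ≤ x := hsize
  have hsize2 : (2 : ℝ) ^ 47 * ((m : ℝ) ^ 5 * 2 ^ (20 * k)) ≤ x :=
    (mul_le_mul_of_nonneg_right (le_max_right _ _) (by positivity)).trans hsize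
  obtain ⟨hx1, hx2, hx3⟩ := hX₀ x hxX
  have hx0 : 1 < x := by rw [hx]; exact_mod_cast (by omega : 1 < N)
  have hx00 : 0 < x := by linarith
  have hR5 : (R : ℝ) ^ 5 ≤ 2 ^ 15 * ((m : ℝ) ^ 5 * 2 ^ (20 * k)) := by
    have h1 : (m : ℝ) + 1 ≤ 2 * m := by linarith
    calc (R : ℝ) ^ 5 = ((m : ℝ) + 1) ^ 5 * ((J : ℝ)) ^ 10 := by rw [hRr]; ring
      _ ≤ (2 * (m : ℝ)) ^ 5 * (2 ^ (2 * k + 1)) ^ 10 := by gcongr
      _ = 2 ^ 15 * ((m : ℝ) ^ 5 * 2 ^ (20 * k)) := by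
          rw [mul_pow, ← pow_mul, show (2 * k + 1) * 10 = 20 * k + 10 by ring, pow_add]
          ring
  have hR5x : (2 : ℝ) ^ 32 * (R : ℝ) ^ 5 ≤ x := by
    calc (2 : ℝ) ^ 32 * (R : ℝ) ^ 5 ≤ 2 ^ 32 * (2 ^ 15 * ((m : ℝ) ^ 5 * 2 ^ (20 * k))) := by gcongr
      _ = (2 : ℝ) ^ 47 * ((m : ℝ) ^ 5 * 2 ^ (20 * k)) := by ring
      _ ≤ x := hsize2
  -- the number `d`
  obtain ⟨d, hd1, hd2, hd3⟩ : ∃ d : ℕ, (d = 1 ∨ d = p) ∧ (d : ℝ) ≤ 24 * Real.log x ∧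
      (m = 1 ∨ d = p ∨ (d = 1 ∧ 24 * Real.log x ≤ p)) := by
    by_cases h : m = 1
    · exact ⟨1, Or.inl rfl, by push_cast; linarith, Or.inl h⟩
    by_cases h' : (p : ℝ) ≤ 24 * Real.log x
    · exact ⟨p, Or.inr rfl, h', Or.inr (Or.inl rfl)⟩
    · exact ⟨1, Or.inl rfl, by push_cast; linarith, Or.inr (Or.inr ⟨rfl, (not_le.1 h').le⟩)⟩
  have hd0 : 1 ≤ d := by
    rcases hd1 with h | h
    · omega
    · rw [h]; exact hp.pos
  have hdr : (1 : ℝ) ≤ d := by exact_mod_cast hd0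
  have hRpos : (0 : ℝ) < R := by linarith
  -- the number `y`
  set y : ℝ := (x * d / (32 * R ^ 2)) ^ (1 / 3 : ℝ) with hy
  have hy0 : 0 ≤ y := by positivity
  have hy3 : y ^ 3 = x * d / (32 * R ^ 2) := by
    rw [hy, ← Real.rpow_natCast, ← Real.rpow_mul (by positivity)]
    norm_num
  -- lower bounds for `y`
  have hyR : 512 * (R : ℝ) ≤ y := by
    have h1 : (512 * (R : ℝ)) ^ 3 ≤ y ^ 3 := by
      rw [hy3, le_div_iff₀ (by positivity)]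
      calc (512 * (R : ℝ)) ^ 3 * (32 * R ^ 2) = 2 ^ 32 * (R : ℝ) ^ 5 := by ring
        _ ≤ x := hR5x
        _ ≤ x * d := le_mul_of_one_le_right hx00.le hdr
    exact le_of_pow_le_pow_left₀ (by norm_num) hy0 h1
  have hyx : x ^ (1 / 5 : ℝ) / 4 ≤ y := by
    have h1 : (x ^ (1 / 5 : ℝ) / 4) ^ 3 ≤ y ^ 3 := by
      rw [hy3, le_div_iff₀ (by positivity)]
      have hxr : (x ^ (1 / 5 : ℝ)) ^ 5 = x := by
        rw [← Real.rpow_natCast, ← Real.rpow_mul hx00.le]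
        norm_num
      have hRx : (R : ℝ) ≤ x ^ (1 / 5 : ℝ) := by
        apply le_of_pow_le_pow_left₀ (n := 5) (by norm_num) (by positivity)
        rw [hxr]
        have : (0 : ℝ) ≤ (R : ℝ) ^ 5 := by positivity
        nlinarith
      calc (x ^ (1 / 5 : ℝ) / 4) ^ 3 * (32 * R ^ 2) ≤
          (x ^ (1 / 5 : ℝ) / 4) ^ 3 * (32 * (x ^ (1 / 5 : ℝ)) ^ 2) := by gcongr
        _ = (x ^ (1 / 5 : ℝ)) ^ 5 / 2 := by ring
        _ = x / 2 := by rw [hxr]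
        _ ≤ x * 1 := by linarith
        _ ≤ x * d := by gcongr
    exact le_of_pow_le_pow_left₀ (by norm_num) hy0 h1
  set W := ⌊y⌋₊ with hW
  have hWy : (W : ℝ) ≤ y := Nat.floor_le hy0
  have hy2 : 2 ≤ y := by linarith
  have hyW : y / 2 ≤ W := by
    have := Nat.lt_floor_add_one y
    rw [← hW] at this
    linarith
  have hW1 : (1 : ℝ) ≤ W := by linarith
  have hW1' : 1 ≤ W := by exact_mod_cast hW1
  have hW0 : W₀ ≤ W := by
    have : (W₀ : ℝ) ≤ W := by linarith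
    exact_mod_cast this
  have hRW : 256 * R ≤ W := by
    have : (256 : ℝ) * R ≤ W := by linarith
    exact_mod_cast this
  have hkW : (k + 1) ^ 2 ≤ W := by
    have h1 : k + 1 ≤ J := by rw [hJ]; exact Nat.le_mul_of_pos_left _ (by positivity)
    calc (k + 1) ^ 2 ≤ J ^ 2 := Nat.pow_le_pow_left h1 2
      _ ≤ R := by rw [hR]; exact Nat.le_mul_of_pos_left _ (by omega)
      _ ≤ W := by omega
  have hWx : (W : ℝ) ≤ x := by
    have hL : Real.log x ≤ x := (Real.log_le_sub_one_of_pos hx00).trans (by linarith)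
    have h1 : y ^ 3 ≤ x ^ 3 := by
      rw [hy3, div_le_iff₀ (by positivity)]
      have hR2 : (1 : ℝ) ≤ (R : ℝ) ^ 2 := one_le_pow₀ hR1
      have e1 : x * d ≤ x * (24 * x) := by
        apply mul_le_mul_of_nonneg_left _ hx00.le
        linarith
      have e2 : x * (24 * x) ≤ x ^ 3 * (32 * 1) := by nlinarith [mul_pos hx00 hx00]
      have e3 : x ^ 3 * (32 * 1) ≤ x ^ 3 * (32 * (R : ℝ) ^ 2) := by gcongr
      linarith
    exact hWy.trans (le_of_pow_le_pow_left₀ (by norm_num) hx00.le h1)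
  have hlogW : Real.log W ≤ Real.log x := Real.log_le_log (by linarith) hWx
  have hlogW0 : 0 < Real.log W := by
    apply Real.log_pos
    linarith
  have hWd : 2 * (d : ℝ) ≤ W := by linarith
  -- the set
  have hsizeTot : 4 * (2 * R * W) ^ 2 * (W + 1) ≤ N * d := by
    have h1 : (4 : ℝ) * (2 * R * W) ^ 2 * (W + 1) ≤ x * d := by
      have h2 : (4 : ℝ) * (2 * R * W) ^ 2 * (W + 1) ≤ (32 * R ^ 2) * y ^ 3 := by
        calc (4 : ℝ) * (2 * R * W) ^ 2 * (W + 1) ≤ 4 * (2 * R * W) ^ 2 * (W + W) := by gcongr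
          _ = (32 * R ^ 2) * (W : ℝ) ^ 3 := by ring
          _ ≤ (32 * R ^ 2) * y ^ 3 := by gcongr
      rw [hy3, mul_div_cancel₀ _ (by positivity)] at h2
      exact h2
    rw [hx] at h1
    exact_mod_cast h1
  have hdJ : 4 * d * J ≤ 2 * R * W := by
    have h1 : (4 : ℝ) * d * J ≤ 2 * R * W := by
      calc (4 : ℝ) * d * J = 2 * J * (2 * d) := by ring
        _ ≤ 2 * R * W := by gcongr
    exact_mod_cast h1
  obtain ⟨S, hS, hcard⟩ := hTot N p m J R W d ((W : ℝ) / (10 * Real.log W)) hp hpN hN hJac hR1' hW1' hd1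
    hdJ hsizeTot (by positivity) (by
      intro t hco hdt ht1 ht2
      refine hRow N p m R t W hW0 hp hpN (by omega) hR1' hRW hkW hco ht1 ht2 ?_
      rcases hd3 with h | h | ⟨-, h⟩
      · exact Or.inl h
      · right; left; rw [← h]; exact hdt
      · right; right; linarith)
  refine ⟨R, S, hSam, hS, ?_⟩
  refine le_trans ?_ hcard
  -- the final estimate
  set L := Real.log x with hL
  have hLpos : 0 < L := by linarith
  have hy00 : 0 < y := by linarith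
  have h1 : (R : ℝ) * y ^ 2 / (40 * d * J * L) ≤ (R * W : ℝ) / (d * J) * (W / (10 * Real.log W)) := by
    have e1 : (R * W : ℝ) / (d * J) * (W / (10 * Real.log W)) = R * (W : ℝ) ^ 2 / (10 * d * J * Real.log W) := by
      field_simp
    have e2 : (R : ℝ) * y ^ 2 / (40 * d * J * L) = R * (y / 2) ^ 2 / (10 * d * J * L) := by
      field_simp
      ring
    rw [e1, e2]
    gcongr
  refine le_trans ?_ h1
  have hD : 0 < (m : ℝ) ^ (1 / 3 : ℝ) * 2 ^ (4 * k) * L ^ (4 / 3 : ℝ) := by positivity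
  rw [div_le_div_iff₀ hD (by positivity)]
  apply le_of_pow_le_pow_left₀ (n := 3) (by norm_num) (by positivity)
  have c1 : (x ^ (2 / 3 : ℝ)) ^ 3 = x ^ 2 := by
    rw [← Real.rpow_natCast, ← Real.rpow_mul hx00.le, ← Real.rpow_natCast]
    norm_num
  have c2 : ((m : ℝ) ^ (1 / 3 : ℝ)) ^ 3 = m := by
    rw [← Real.rpow_natCast, ← Real.rpow_mul (by positivity)]
    norm_num
  have c3 : (L ^ (4 / 3 : ℝ)) ^ 3 = L ^ 4 := by
    rw [← Real.rpow_natCast, ← Real.rpow_mul hLpos.le, ← Real.rpow_natCast]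
    norm_num
  have l1 : (1 / 5000 * x ^ (2 / 3 : ℝ) * (40 * d * J * L)) ^ 3 =
      (1 / 5000) ^ 3 * 64000 * (x ^ 2 * d ^ 3 * J ^ 3 * L ^ 3) := by
    calc (1 / 5000 * x ^ (2 / 3 : ℝ) * (40 * d * J * L)) ^ 3 =
        (1 / 5000) ^ 3 * 64000 * ((x ^ (2 / 3 : ℝ)) ^ 3 * d ^ 3 * J ^ 3 * L ^ 3) := by ring
      _ = _ := by rw [c1]
  have l2 : ((R : ℝ) * y ^ 2 * ((m : ℝ) ^ (1 / 3 : ℝ) * 2 ^ (4 * k) * L ^ (4 / 3 : ℝ))) ^ 3 =
      x ^ 2 * d ^ 2 * m * 2 ^ (12 * k) * L ^ 4 / (1024 * R) := by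
    calc ((R : ℝ) * y ^ 2 * ((m : ℝ) ^ (1 / 3 : ℝ) * 2 ^ (4 * k) * L ^ (4 / 3 : ℝ))) ^ 3 =
        R ^ 3 * (y ^ 3) ^ 2 * ((m : ℝ) ^ (1 / 3 : ℝ)) ^ 3 * (2 ^ (4 * k)) ^ 3 * (L ^ (4 / 3 : ℝ)) ^ 3 := by ring
      _ = _ := by
        rw [c2, c3, hy3, ← pow_mul, show 4 * k * 3 = 12 * k by ring]
        field_simp
        ring
  rw [l1, l2, le_div_iff₀ (by positivity)]
  -- `(1/5000)^3 * 64000 * 1024 * d * J^3 * R ≤ m 2^(12k) L`
  have hkey : (1 / 5000) ^ 3 * 64000 * 1024 * ((d : ℝ) * J ^ 3 * R) ≤ m * 2 ^ (12 * k) * L := by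
    have e1 : (R : ℝ) ≤ 2 * m * J ^ 2 := by
      rw [hRr]
      gcongr
      linarith
    have e2 : (J : ℝ) ^ 5 ≤ 32 * 2 ^ (10 * k) := by
      calc (J : ℝ) ^ 5 ≤ (2 ^ (2 * k + 1)) ^ 5 := by gcongr
        _ = 32 * 2 ^ (10 * k) := by
          rw [← pow_mul, show (2 * k + 1) * 5 = 10 * k + 5 by ring, pow_add]
          ring
    have e3 : (2 : ℝ) ^ (10 * k) ≤ 2 ^ (12 * k) := pow_le_pow_right₀ (by norm_num) (by omega)
    calc (1 / 5000) ^ 3 * 64000 * 1024 * ((d : ℝ) * J ^ 3 * R) ≤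
        (1 / 5000) ^ 3 * 64000 * 1024 * ((24 * L) * J ^ 3 * (2 * m * J ^ 2)) := by gcongr
      _ = (1 / 5000) ^ 3 * 64000 * 1024 * 48 * (m * L * (J : ℝ) ^ 5) := by ring
      _ ≤ (1 / 5000) ^ 3 * 64000 * 1024 * 48 * (m * L * (32 * 2 ^ (12 * k))) := by
          gcongr
          exact e2.trans (by gcongr)
      _ = ((1 / 5000) ^ 3 * 64000 * 1024 * 48 * 32) * (m * 2 ^ (12 * k) * L) := by ring
      _ ≤ 1 * (m * 2 ^ (12 * k) * L) := by
          apply mul_le_mul_of_nonneg_right _ (by positivity)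
          norm_num
      _ = _ := one_mul _
  calc (1 / 5000) ^ 3 * 64000 * (x ^ 2 * d ^ 3 * J ^ 3 * L ^ 3) * (1024 * R) =
      ((1 / 5000) ^ 3 * 64000 * 1024 * ((d : ℝ) * J ^ 3 * R)) * (x ^ 2 * d ^ 2 * L ^ 3) := by ring
    _ ≤ (m * 2 ^ (12 * k) * L) * (x ^ 2 * d ^ 2 * L ^ 3) := by gcongr
    _ = x ^ 2 * d ^ 2 * m * 2 ^ (12 * k) * L ^ 4 := by ring

end Pool.Agent.Helper85.GP.Cnt
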