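import Mathlib
import Pool.Agent.Helper85.GP.Def

/-!
# The functions `b ↦ P({Q b / N})` for good `Q` are linearly independent
-/

set_option autoImplicit false

namespace Pool.Agent.Helper85.GP.Core

open Finset Polynomial

/-- a polynomial of degree at most `m` with `m + 1` different zeros -/
lemma poly_zero {κ : Type} [Field κ] (m : ℕ) (H : κ[X]) (hdeg : H.natDegree ≤ m) (E : Finset κ)
    (hE : E.card = m + 1) (hz : ∀ x ∈ E, H.eval x = 0) : H = 0 := by
  by_contra hne
  have h1 : E.val ⊆ H.roots := by
    intro x hx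
    exact (mem_roots hne).2 (hz x hx)
  have h2 := Polynomial.card_le_degree_of_subset_roots (p := H) (Z := E) h1
  omega

/-- the largest index of the support -/
lemma exists_top {κ : Type} [Field κ] (S : Finset ℕ) (g : ℕ → κ) (hne : ∃ Q ∈ S, g Q ≠ 0) :
    ∃ Q ∈ S, g Q ≠ 0 ∧ ∀ c ∈ S, g c ≠ 0 → c ≤ Q := by
  classical
  obtain ⟨Q₀, h1, h2⟩ := hne
  have hn : (S.filter fun c => g c ≠ 0).Nonempty := ⟨Q₀, mem_filter.2 ⟨h1, h2⟩⟩
  refine ⟨_, (mem_filter.1 (Finset.max'_mem _ hn)).1, (mem_filter.1 (Finset.max'_mem _ hn)).2, ?_⟩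
  intro c hc hgc
  exact Finset.le_max' _ _ (mem_filter.2 ⟨hc, hgc⟩)

/-- floors at the sample points -/
lemma floor_sample {N v u c b s Q R : ℕ} (hN : 0 < N) (hv : 0 < v) (hb : v * b = u * N + s) (hs : s < v * R)
    (hR : R * v * Q ≤ N) (hc : c ≤ Q) : c * b / N = c * u / v := by
  set j := c * u / v with hj
  have h1 : v * j + c * u % v = c * u := Nat.div_add_mod (c * u) v
  have h2 : c * u % v < v := Nat.mod_lt _ hv
  have hcs : c * s < N ∨ (c * s = 0) := by
    rcases Nat.eq_zero_or_pos (c * s) with h | h
    · right; exact h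
    · left
      have hc0 : 0 < c := Nat.pos_of_mul_pos_right h |> fun h => by
        rcases Nat.eq_zero_or_pos c with h' | h'
        · subst h'; simp at *
        · exact h'
      calc c * s < c * (v * R) := by
            exact (Nat.mul_lt_mul_left hc0).2 hs
        _ ≤ Q * (v * R) := Nat.mul_le_mul_right _ hc
        _ = R * v * Q := by ring
        _ ≤ N := hR
  have hcs' : c * s < N := by
    rcases hcs with h | h
    · exact h
    · omega
  have h3 : v * (c * b) = v * (j * N) + ((c * u % v) * N + c * s) := by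
    have : v * (c * b) = c * (v * b) := by ring
    rw [this, hb]
    have : c * (u * N + s) = (c * u) * N + c * s := by ring
    rw [this]
    nth_rewrite 1 [← h1]
    ring
  have h4 : (c * u % v) * N + c * s < v * N := by
    have : (c * u % v) * N + N ≤ v * N := by
      have := Nat.mul_le_mul_right N (show c * u % v + 1 ≤ v from h2)
      rw [add_mul, one_mul] at this
      exact this
    omega
  apply Nat.div_eq_of_lt_le
  · have : v * (j * N) ≤ v * (c * b) := by rw [h3]; exact Nat.le_add_right _ _
    exact Nat.le_of_mul_le_mul_left this hv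
  · have : v * (c * b) < v * ((j + 1) * N) := by
      rw [h3]
      have : v * ((j + 1) * N) = v * (j * N) + v * N := by ring
      rw [this]
      exact Nat.add_lt_add_left h4 _
    exact Nat.lt_of_mul_lt_mul_left this

/-- floors at the point `b_t` -/
lemma floor_top {N v u c b t : ℕ} (hv : 2 ≤ v) (hb : v * b = u * N + t) (hct : c * t < 2 * N) :
    c * b / N = c * u / v + (if c * u % v = v - 1 ∧ N ≤ c * t then 1 else 0) := by
  have hv0 : 0 < v := by omega
  set j := c * u / v with hj
  have h1 : v * j + c * u % v = c * u := Nat.div_add_mod (c * u) v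
  have h2 : c * u % v < v := Nat.mod_lt _ hv0
  have h3 : v * (c * b) = v * (j * N) + ((c * u % v) * N + c * t) := by
    have : v * (c * b) = c * (v * b) := by ring
    rw [this, hb]
    have : c * (u * N + t) = (c * u) * N + c * t := by ring
    rw [this]
    nth_rewrite 1 [← h1]
    ring
  set r := c * u % v with hr
  split_ifs with h
  · obtain ⟨hr1, hN1⟩ := h
    have h5 : r * N + N = v * N := by
      have : r + 1 = v := by omega
      rw [← this]; ring
    apply Nat.div_eq_of_lt_le
    · have : v * ((j + 1) * N) ≤ v * (c * b) := by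
        rw [h3]
        have : v * ((j + 1) * N) = v * (j * N) + v * N := by ring
        omega
      exact Nat.le_of_mul_le_mul_left this hv0
    · have : v * (c * b) < v * ((j + 1 + 1) * N) := by
        rw [h3]
        have e1 : v * ((j + 1 + 1) * N) = v * (j * N) + v * N + v * N := by ring
        have e2 : 2 * N ≤ v * N := Nat.mul_le_mul_right _ hv
        omega
      exact Nat.lt_of_mul_lt_mul_left this
  · rw [add_zero]
    have h4 : r * N + c * t < v * N := by
      by_cases hr1 : r = v - 1
      · have h6 : c * t < N := by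
          by_contra hcon
          exact h ⟨hr1, not_lt.1 hcon⟩
        have h5 : r * N + N = v * N := by
          have : r + 1 = v := by omega
          rw [← this]; ring
        omega
      · have h5 : r * N + 2 * N ≤ v * N := by
          have := Nat.mul_le_mul_right N (show r + 2 ≤ v by omega)
          rw [add_mul] at this
          exact this
        omega
    apply Nat.div_eq_of_lt_le
    · have : v * (j * N) ≤ v * (c * b) := by rw [h3]; exact Nat.le_add_right _ _
      exact Nat.le_of_mul_le_mul_left this hv0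
    · have : v * (c * b) < v * ((j + 1) * N) := by
        rw [h3]
        have : v * ((j + 1) * N) = v * (j * N) + v * N := by ring
        omega
      exact Nat.lt_of_mul_lt_mul_left this

/-- the argument of `P` -/
lemma cast_mod {κ : Type} [Field κ] {N : ℕ} (hN : (N : κ) ≠ 0) (x : ℕ) :
    ((x % N : ℕ) : κ) / N = (x : κ) / N - ((x / N : ℕ) : κ) := by
  have h1 : (x : κ) = N * ((x / N : ℕ) : κ) + ((x % N : ℕ) : κ) := by
    exact_mod_cast congrArg (Nat.cast : ℕ → κ) (Nat.div_add_mod x N).symm
  rw [eq_sub_iff_add_eq, h1]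
  field_simp
  ring

theorem main : S_Core := by
  intro κ _ p _ N m R hp hpN hm hmp hsam P w hdeg hw hP S hS g hg
  classical
  by_contra hcon
  push Not at hcon
  obtain ⟨Q, hQS, hgQ, htop⟩ := exists_top S g hcon
  obtain ⟨hQ0, hQN, t, v, hv2, hvN, htN, hNQ, hQ2N, hvd, hlt, hRvQ, he⟩ := hS Q hQS
  have hN0 : 0 < N := by omega
  have hv0 : 0 < v := by omega
  have hNκ : (N : κ) ≠ 0 := by
    intro h
    exact hpN ((CharP.cast_eq_zero_iff κ p N).1 h)
  -- `u` with `u N + t = 0` modulo `v`
  obtain ⟨u, b₁, hb₁⟩ : ∃ u b₁ : ℕ, v * b₁ = u * N + t := by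
    have hco : Nat.Coprime N v := hvN.symm
    obtain ⟨a, ha⟩ := Nat.exists_mul_mod_eq_one_of_coprime hco (by omega)
    -- `u = a (v t - t)`
    have h1 : v ∣ a * ((v - 1) * t) * N + t := by
      have h2 : (a * ((v - 1) * t) * N + t) % v = 0 := by
        have h3 : (N * a) ≡ 1 [MOD v] := by
          have : (N * a) % v = 1 % v := by
            rw [ha.2, Nat.mod_eq_of_lt (by omega : 1 < v)]
          exact this
        have h4 : a * ((v - 1) * t) * N + t ≡ 1 * ((v - 1) * t) + t [MOD v] := by
          have : a * ((v - 1) * t) * N = (N * a) * ((v - 1) * t) := by ring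
          rw [this]
          exact (h3.mul_right _).add_right _
        have h5 : 1 * ((v - 1) * t) + t = v * t := by
          obtain ⟨v', rfl⟩ : ∃ v', v = v' + 1 := ⟨v - 1, by omega⟩
          rw [Nat.add_sub_cancel]; ring
        rw [h5] at h4
        rw [h4]
        exact Nat.mul_mod_right v t
      exact Nat.dvd_of_mod_eq_zero h2
    obtain ⟨b₁, hb₁⟩ := h1
    exact ⟨_, b₁, hb₁.symm⟩
  -- `Q u = -1` modulo `v`
  have hQu : v ∣ Q * u + 1 := by
    have h1 : v ∣ Q * (u * N + t) := by rw [← hb₁]; exact dvd_mul_of_dvd_right (dvd_mul_right _ _) _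
    have h2 : Q * (u * N + t) = (Q * u + 1) * N + (Q * t - N) := by
      zify [hNQ]
      ring
    rw [h2] at h1
    have h3 : v ∣ (Q * u + 1) * N := (Nat.dvd_add_left hvd).1 h1
    exact hvN.dvd_of_dvd_mul_right h3
  -- the polynomial `H`
  set H : κ[X] := ∑ c ∈ S, C (g c) * P.comp (C ((c : κ) / N) * X - C ((c * u / v : ℕ) : κ)) with hH
  have hHeval : ∀ x : κ, H.eval x = ∑ c ∈ S, g c * P.eval ((c : κ) * x / N - ((c * u / v : ℕ) : κ)) := by
    intro x
    rw [hH, eval_finsetSum]
    refine Finset.sum_congr rfl fun c _ => ?_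
    rw [eval_mul, eval_C, eval_comp, eval_sub, eval_mul, eval_C, eval_X, eval_C]
    congr 3
    ring
  have hHdeg : H.natDegree ≤ m := by
    rw [hH]
    refine natDegree_sum_le_of_forall_le _ _ fun c _ => ?_
    refine (natDegree_C_mul_le _ _).trans ?_
    refine natDegree_comp_le.trans ?_
    have h1 : (C ((c : κ) / N) * X - C ((c * u / v : ℕ) : κ)).natDegree ≤ 1 := by
      refine (natDegree_sub_le _ _).trans ?_
      rw [natDegree_C]
      exact max_le ((natDegree_C_mul_le _ _).trans natDegree_X_le) (by norm_num)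
    calc P.natDegree * _ ≤ m * 1 := Nat.mul_le_mul hdeg h1
      _ = m := mul_one m
  -- the sample points
  obtain ⟨D, hDc, hD, hDinj⟩ := hsam ((u * N + v - 1) / v)
  have hH0 : H = 0 := by
    refine poly_zero m H hHdeg (D.image (fun b : ℕ => (b : κ))) ?_ ?_
    · rw [Finset.card_image_of_injOn, hDc]
      intro b hb b' hb' hbb
      refine hDinj b hb b' hb' ?_
      exact (CharP.natCast_eq_natCast κ p).1 hbb
    · intro x hx
      obtain ⟨b, hb, rfl⟩ := mem_image.1 hx
      obtain ⟨hb1, hb2, hb3⟩ := hD b hb
      rw [hHeval]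
      rw [← hg b hb3]
      refine Finset.sum_congr rfl fun c hc => ?_
      by_cases hgc : g c = 0
      · rw [hgc, zero_mul, zero_mul]
      · have hcQ := htop c hc hgc
        rw [cast_mod hNκ]
        have hge : u * N ≤ v * b := by
          have h6 : u * N < v * ((u * N + v - 1) / v + 1) := by
            have h7 := Nat.lt_mul_div_succ (u * N + v - 1) hv0
            omega
          by_contra hlt'
          push Not at hlt'
          have h8 := Nat.div_mul_le_self (u * N + v - 1) v
          have h9 : v * ((u * N + v - 1) / v) ≤ v * b := Nat.mul_le_mul_left _ hb1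
          have h10 := Nat.lt_mul_div_succ (u * N + v - 1) hv0
          have h11 : v * ((u * N + v - 1) / v + 1) = v * ((u * N + v - 1) / v) + v := by ring
          omega
        obtain ⟨s, hs⟩ := Nat.exists_eq_add_of_le hge
        have hsR : s < v * R := by
          have h8 := Nat.div_mul_le_self (u * N + v - 1) v
          have h9 : v * (b + 1) ≤ v * ((u * N + v - 1) / v + R) := Nat.mul_le_mul_left _ (by omega)
          have h10 : v * (b + 1) = v * b + v := by ring
          have h11 : v * ((u * N + v - 1) / v + R) = (u * N + v - 1) / v * v + v * R := by ring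
          omega
        rw [floor_sample hN0 hv0 hs hsR hRvQ hcQ]
        push_cast
        ring_nf
  -- the point `b₁`
  have hb₁N : b₁.Coprime N := by
    have h1 : Nat.Coprime (u * N + t) N := by
      rw [Nat.coprime_mul_right_add_left]
      exact htN
    rw [← hb₁] at h1
    exact Nat.Coprime.coprime_mul_left h1
  have h1 := hg b₁ hb₁N
  have h2 : H.eval (b₁ : κ) = 0 := by rw [hH0, eval_zero]
  rw [hHeval] at h2
  have h3 : ∑ c ∈ S, (g c * P.eval ((c : κ) * b₁ / N - ((c * u / v : ℕ) : κ)) -
      g c * P.eval (((c * b₁ % N : ℕ) : κ) / (N : κ))) = 0 := by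
    rw [Finset.sum_sub_distrib, h1, h2, sub_zero]
  -- the terms
  have h4 : ∀ c ∈ S, c ≠ Q → g c * P.eval ((c : κ) * b₁ / N - ((c * u / v : ℕ) : κ)) -
      g c * P.eval (((c * b₁ % N : ℕ) : κ) / (N : κ)) = 0 := by
    intro c hc hcQ
    by_cases hgc : g c = 0
    · rw [hgc, zero_mul, zero_mul, sub_zero]
    · have hcQ' : c < Q := lt_of_le_of_ne (htop c hc hgc) hcQ
      have hct : c * t < 2 * N := lt_of_le_of_lt (Nat.mul_le_mul_right _ hcQ'.le) hQ2N
      rw [cast_mod hNκ, floor_top hv2 hb₁ hct, if_neg]
      · rw [add_zero]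
        push_cast
        ring
      · rintro ⟨h5, h6⟩
        -- `v` divides `Q - c`
        have h7 : v ∣ c * u + 1 := by
          refine ⟨c * u / v + 1, ?_⟩
          have := Nat.div_add_mod (c * u) v
          rw [h5] at this
          have e : v * (c * u / v + 1) = v * (c * u / v) + v := by ring
          omega
        have h8 : v ∣ (Q - c) * u := by
          have h9 : (Q - c) * u = (Q * u + 1) - (c * u + 1) := by
            rw [Nat.sub_mul]; omega
          rw [h9]
          exact Nat.dvd_sub hQu h7
        have h10 : Nat.Coprime v u := by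
          rw [Nat.coprime_iff_gcd_eq_one]
          have h11 : Nat.gcd v u ∣ 1 := by
            have h12 : Nat.gcd v u ∣ Q * u + 1 := (Nat.gcd_dvd_left v u).trans hQu
            have h13 : Nat.gcd v u ∣ Q * u := dvd_mul_of_dvd_right (Nat.gcd_dvd_right v u) Q
            exact (Nat.dvd_add_right h13).1 h12
          exact Nat.dvd_one.1 h11
        have h14 : v ∣ Q - c := h10.dvd_of_dvd_mul_right h8
        have h15 : v ≤ Q - c := Nat.le_of_dvd (by omega) h14
        have h16 : v * t ≤ (Q - c) * t := Nat.mul_le_mul_right _ h15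
        rw [Nat.sub_mul] at h16
        omega
  rw [Finset.sum_eq_single_of_mem Q hQS h4] at h3
  -- the term of `Q`
  obtain ⟨e, hedef⟩ := hvd
  obtain ⟨j, hj⟩ := hQu
  have hj0 : 1 ≤ j := by
    rcases Nat.eq_zero_or_pos j with h | h
    · rw [h, mul_zero] at hj
      omega
    · exact h
  have hQb : Q * b₁ = j * N + e := by
    have h6 : v * (Q * b₁) = v * (j * N + e) := by
      have h7 : v * (Q * b₁) = Q * (v * b₁) := by ring
      have h8 : v * (j * N + e) = (v * j) * N + v * e := by ring
      rw [h7, hb₁, h8, ← hj, ← hedef]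
      zify [hNQ]
      ring
    exact Nat.eq_of_mul_eq_mul_left hv0 h6
  have hQu5 : Q * u / v = j - 1 ∧ Q * u % v = v - 1 := by
    have h6 : Q * u = (v - 1) + v * (j - 1) := by
      have : v * (j - 1) = v * j - v := by rw [Nat.mul_sub, mul_one]
      have h9 : v ≤ v * j := Nat.le_mul_of_pos_right _ hj0
      omega
    constructor
    · rw [h6, Nat.add_mul_div_left _ _ hv0, Nat.div_eq_of_lt (by omega), zero_add]
    · rw [h6, Nat.add_mul_mod_self_left, Nat.mod_eq_of_lt (by omega)]
  have hfl : Q * b₁ / N = j := by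
    rw [floor_top hv2 hb₁ hQ2N, hQu5.1, if_pos ⟨hQu5.2, hNQ⟩]
    omega
  rw [cast_mod hNκ, hfl, hQu5.1, ← mul_sub] at h3
  have h6 : ((Q * b₁ : ℕ) : κ) / N = (j : κ) + (e : κ) / N := by
    rw [hQb]
    push_cast
    field_simp
  have h7 : (Q : κ) * b₁ / N - ((j - 1 : ℕ) : κ) = (e : κ) / N + 1 := by
    have : (Q : κ) * b₁ / N = ((Q * b₁ : ℕ) : κ) / N := by push_cast; ring
    rw [this, h6]
    push_cast [hj0]
    ring
  have h8 : ((Q * b₁ : ℕ) : κ) / N - (j : κ) = (e : κ) / N := by
    rw [h6]; ring
  rw [h7, h8, hP] at h3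
  rcases mul_eq_zero.1 h3 with h9 | h9
  · exact hgQ h9
  rcases mul_eq_zero.1 h9 with h10 | h10
  · exact hw h10
  rcases he with hm1 | he
  · rw [hm1, Nat.sub_self, pow_zero] at h10
    exact one_ne_zero h10
  · have h11 : (e : κ) / N = 0 := eq_zero_of_pow_eq_zero h10
    rw [div_eq_zero_iff] at h11
    rcases h11 with h12 | h12
    · apply he
      rw [hedef, Nat.mul_div_cancel_left _ hv0]
      exact (CharP.cast_eq_zero_iff κ p e).1 h12
    · exact hNκ h12

end Pool.Agent.Helper85.GP.Core
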