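import Mathlib
import Pool.Agent.Helper85.GP.Core

/-!
# Distribution relations and imprimitive characters over a field of characteristic `p`
-/

set_option autoImplicit false

namespace Pool.Agent.Helper85.GP.Imp

open Finset Polynomial

section

variable {κ : Type} [Field κ] (p : ℕ) [CharP κ p] (m : ℕ) (hm : 1 ≤ m) (hmp : m < p) (P : κ[X]) (u : κ)
  (hdeg : P.natDegree ≤ m) (hP : ∀ x : κ, P.eval (x + 1) - P.eval x = u * x ^ (m - 1))

include hm hmp hdeg hP

/-- the distribution relation -/
theorem distrib (n : ℕ) (hn : (n : κ) ≠ 0) : ∃ c : κ, ∀ x : κ,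
    (n : κ) ^ (m - 1) * ∑ j ∈ range n, P.eval ((x + j) / n) = P.eval x + c := by
  classical
  set G : κ[X] := C ((n : κ) ^ (m - 1)) * ∑ j ∈ range n, P.comp (C ((n : κ)⁻¹) * X + C ((j : κ) / n)) - P
    with hG
  have hGeval : ∀ x : κ, G.eval x = (n : κ) ^ (m - 1) * ∑ j ∈ range n, P.eval ((x + j) / n) - P.eval x := by
    intro x
    rw [hG, eval_sub, eval_mul, eval_C, eval_finsetSum]
    congr 2
    refine Finset.sum_congr rfl fun j _ => ?_
    rw [eval_comp, eval_add, eval_mul, eval_C, eval_X, eval_C]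
    congr 1
    ring
  have hstep : ∀ x : κ, G.eval (x + 1) = G.eval x := by
    intro x
    rw [hGeval, hGeval]
    have h1 : ∑ j ∈ range n, P.eval ((x + 1 + j) / n) - ∑ j ∈ range n, P.eval ((x + j) / n) =
        P.eval (x / n + 1) - P.eval (x / n) := by
      rw [← Finset.sum_sub_distrib]
      have h2 : ∀ j ∈ range n, P.eval ((x + 1 + j) / n) - P.eval ((x + j) / n) =
          (fun i : ℕ => P.eval ((x + i) / n)) (j + 1) - (fun i : ℕ => P.eval ((x + i) / n)) j := by
        intro j _
        simp only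
        congr 3
        push_cast
        ring
      rw [Finset.sum_congr rfl h2, Finset.sum_range_sub (fun i : ℕ => P.eval ((x + i) / n))]
      simp only [Nat.cast_zero, add_zero]
      congr 2
      field_simp
    have h3 := hP (x / n)
    have h4 := hP x
    have h5 : (n : κ) ^ (m - 1) * (u * (x / n) ^ (m - 1)) = u * x ^ (m - 1) := by
      rw [div_pow]
      have : (n : κ) ^ (m - 1) ≠ 0 := pow_ne_zero _ hn
      field_simp
    rw [h3] at h1
    linear_combination (n : κ) ^ (m - 1) * h1 - h4 + h5
  have hnat : ∀ k : ℕ, G.eval (k : κ) = G.eval 0 := by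
    intro k
    induction k with
    | zero => rw [Nat.cast_zero]
    | succ k ih => rw [Nat.cast_succ, hstep, ih]
  have hGdeg : (G - C (G.eval 0)).natDegree ≤ m := by
    refine (natDegree_sub_le _ _).trans (max_le ?_ (by rw [natDegree_C]; exact Nat.zero_le _))
    rw [hG]
    refine (natDegree_sub_le _ _).trans (max_le ?_ hdeg)
    refine (natDegree_C_mul_le _ _).trans ?_
    refine natDegree_sum_le_of_forall_le _ _ fun j _ => ?_
    refine natDegree_comp_le.trans ?_
    have h1 : (C ((n : κ)⁻¹) * X + C ((j : κ) / n)).natDegree ≤ 1 := natDegree_linear_le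
    calc P.natDegree * _ ≤ m * 1 := Nat.mul_le_mul hdeg h1
      _ = m := mul_one m
  have h0 : G - C (G.eval 0) = 0 := by
    refine Core.poly_zero m _ hGdeg ((range (m + 1)).image (fun b : ℕ => (b : κ))) ?_ ?_
    · rw [Finset.card_image_of_injOn, card_range]
      intro b hb b' hb' hbb
      have h1 := (CharP.natCast_eq_natCast κ p).1 hbb
      rw [Finset.mem_coe, mem_range] at hb hb'
      exact Nat.ModEq.eq_of_lt_of_lt h1 (by omega) (by omega)
    · intro x hx
      obtain ⟨b, hb, rfl⟩ := mem_image.1 hx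
      rw [eval_sub, eval_C, hnat, sub_self]
  refine ⟨G.eval 0, fun x => ?_⟩
  have h1 : G.eval x = G.eval 0 := by
    have := congrArg (fun q => q.eval x) h0
    simp only [eval_sub, eval_C, eval_zero] at this
    exact sub_eq_zero.1 this
  rw [← h1, hGeval]
  ring

/-- the complete sums of level `f n` -/
theorem full_sum (f n : ℕ) (hf : 0 < f) (hnκ : (n : κ) ≠ 0) (hfκ : (f : κ) ≠ 0)
    (χ : MulChar (ZMod f) κ) (h0 : ∑ r ∈ range f, χ (r : ZMod f) = 0)
    (h1 : ∑ r ∈ range f, χ (r : ZMod f) * P.eval ((r : κ) / f) = 0) :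
    ∑ a ∈ range (f * n), χ (a : ZMod f) * P.eval ((a : κ) / ((f * n : ℕ) : κ)) = 0 := by
  obtain ⟨c, hc⟩ := distrib p m hm hmp P u hdeg hP n hnκ
  have h2 : ∑ a ∈ range (f * n), χ (a : ZMod f) * P.eval ((a : κ) / ((f * n : ℕ) : κ)) =
      ∑ x ∈ range f ×ˢ range n, χ (x.1 : ZMod f) * P.eval (((x.1 : κ) / f + x.2) / n) := by
    refine Finset.sum_nbij' (fun a => (a % f, a / f)) (fun x => x.1 + f * x.2) ?_ ?_ ?_ ?_ ?_
    · intro a ha
      rw [mem_range] at ha
      rw [mem_product, mem_range, mem_range]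
      exact ⟨Nat.mod_lt _ hf, Nat.div_lt_of_lt_mul ha⟩
    · rintro ⟨r, j⟩ hx
      rw [mem_product, mem_range, mem_range] at hx
      simp only at hx ⊢
      rw [mem_range]
      calc r + f * j < f + f * j := Nat.add_lt_add_right hx.1 _
        _ = f * (j + 1) := by ring
        _ ≤ f * n := Nat.mul_le_mul_left _ hx.2
    · intro a _
      exact Nat.mod_add_div a f
    · rintro ⟨r, j⟩ hx
      rw [mem_product, mem_range, mem_range] at hx
      simp only at hx ⊢
      rw [Nat.add_mul_mod_self_left, Nat.mod_eq_of_lt hx.1, Nat.add_mul_div_left _ _ hf,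
        Nat.div_eq_of_lt hx.1, zero_add]
    · intro a _
      simp only
      have h3 : ((a % f : ℕ) : ZMod f) = (a : ZMod f) := by
        rw [ZMod.natCast_mod]
      rw [h3]
      congr 2
      have h4 : (a : κ) = ((a % f : ℕ) : κ) + f * ((a / f : ℕ) : κ) := by
        have := congrArg (Nat.cast : ℕ → κ) (Nat.mod_add_div a f)
        push_cast at this
        exact this.symm
      rw [h4]
      push_cast
      field_simp
  rw [h2, Finset.sum_product]
  have h5 : ∀ r ∈ range f, ∑ j ∈ range n, χ (r : ZMod f) * P.eval (((r : κ) / f + j) / n) =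
      ((n : κ) ^ (m - 1))⁻¹ * (χ (r : ZMod f) * P.eval ((r : κ) / f) + c * χ (r : ZMod f)) := by
    intro r _
    rw [← Finset.mul_sum]
    have h6 := hc ((r : κ) / f)
    have h7 : (n : κ) ^ (m - 1) ≠ 0 := pow_ne_zero _ hnκ
    have h8 : ∑ j ∈ range n, P.eval (((r : κ) / f + j) / n) =
        ((n : κ) ^ (m - 1))⁻¹ * (P.eval ((r : κ) / f) + c) := by
      rw [← h6]
      field_simp
    rw [h8]
    ring
  rw [Finset.sum_congr rfl h5, ← Finset.mul_sum, Finset.sum_add_distrib, h1, ← Finset.mul_sum, h0]
  ring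

/-- the sums of level `M` over the numbers prime to `M` -/
theorem coprime_sum (f : ℕ) (hf : 0 < f) (χ : MulChar (ZMod f) κ)
    (h0 : ∑ r ∈ range f, χ (r : ZMod f) = 0)
    (h1 : ∑ r ∈ range f, χ (r : ZMod f) * P.eval ((r : κ) / f) = 0) :
    ∀ M : ℕ, 0 < M → f ∣ M → (M : κ) ≠ 0 →
      ∑ a ∈ (range M).filter (fun a => a.Coprime M), χ (a : ZMod f) * P.eval ((a : κ) / (M : κ)) = 0 := by
  intro M
  induction M using Nat.strong_induction_on with
  | _ M ih =>
    intro hM hfM hMκ
    obtain ⟨n, hn⟩ := hfM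
    have hn0 : 0 < n := by
      rcases Nat.eq_zero_or_pos n with h | h
      · rw [h, mul_zero] at hn; omega
      · exact h
    have hfκ : (f : κ) ≠ 0 := by
      intro h; apply hMκ; rw [hn]; push_cast; rw [h, zero_mul]
    have hnκ : (n : κ) ≠ 0 := by
      intro h; apply hMκ; rw [hn]; push_cast; rw [h, mul_zero]
    have h2 := full_sum p m hm hmp P u hdeg hP f n hf hnκ hfκ χ h0 h1
    rw [← hn] at h2
    -- split by the greatest common divisor
    have h3 : ∑ a ∈ range M, χ (a : ZMod f) * P.eval ((a : κ) / (M : κ)) =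
        ∑ δ ∈ M.divisors, ∑ a ∈ (range M).filter (fun a => Nat.gcd a M = δ),
          χ (a : ZMod f) * P.eval ((a : κ) / (M : κ)) := by
      rw [Finset.sum_fiberwise_of_maps_to]
      intro a _
      exact Nat.mem_divisors.2 ⟨Nat.gcd_dvd_right _ _, hM.ne'⟩
    have h4 : ∀ δ ∈ M.divisors, δ ≠ 1 → ∑ a ∈ (range M).filter (fun a => Nat.gcd a M = δ),
          χ (a : ZMod f) * P.eval ((a : κ) / (M : κ)) = 0 := by
      intro δ hδ hδ1
      have hδM : δ ∣ M := Nat.dvd_of_mem_divisors hδ
      obtain ⟨M', hM'⟩ := hδM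
      have hδ0 : 0 < δ := Nat.pos_of_mem_divisors hδ
      have hM'0 : 0 < M' := by
        rcases Nat.eq_zero_or_pos M' with h | h
        · rw [h, mul_zero] at hM'; omega
        · exact h
      have h5 : ∑ a ∈ (range M).filter (fun a => Nat.gcd a M = δ),
          χ (a : ZMod f) * P.eval ((a : κ) / (M : κ)) = χ (δ : ZMod f) *
          ∑ a ∈ (range M').filter (fun a => a.Coprime M'),
            χ (a : ZMod f) * P.eval ((a : κ) / (M' : κ)) := by
        rw [Finset.mul_sum]
        refine Finset.sum_nbij' (fun a => a / δ) (fun a => δ * a) ?_ ?_ ?_ ?_ ?_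
        · intro a ha
          rw [mem_filter, mem_range] at ha ⊢
          obtain ⟨ha1, ha2⟩ := ha
          have hda : δ ∣ a := by rw [← ha2]; exact Nat.gcd_dvd_left _ _
          obtain ⟨a', rfl⟩ := hda
          rw [Nat.mul_div_cancel_left _ hδ0]
          refine ⟨?_, ?_⟩
          · rw [hM'] at ha1
            exact Nat.lt_of_mul_lt_mul_left ha1
          · rw [hM', Nat.gcd_mul_left] at ha2
            exact Nat.eq_of_mul_eq_mul_left hδ0 (by rw [ha2, mul_one])
        · intro a ha
          rw [mem_filter, mem_range] at ha ⊢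
          refine ⟨?_, ?_⟩
          · rw [hM']
            exact (Nat.mul_lt_mul_left hδ0).2 ha.1
          · rw [hM', Nat.gcd_mul_left, ha.2, mul_one]
        · intro a ha
          rw [mem_filter] at ha
          have hda : δ ∣ a := by rw [← ha.2]; exact Nat.gcd_dvd_left _ _
          exact Nat.mul_div_cancel' hda
        · intro a _
          exact Nat.mul_div_cancel_left _ hδ0
        · intro a ha
          rw [mem_filter] at ha
          have hda : δ ∣ a := by rw [← ha.2]; exact Nat.gcd_dvd_left _ _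
          obtain ⟨a', rfl⟩ := hda
          rw [Nat.mul_div_cancel_left _ hδ0, Nat.cast_mul, map_mul, mul_assoc]
          congr 3
          have hδκ : (δ : κ) ≠ 0 := by
            intro h; apply hMκ; rw [hM']; push_cast; rw [h, zero_mul]
          rw [hM']
          push_cast
          exact mul_div_mul_left _ _ hδκ
      rw [h5]
      by_cases hco : Nat.Coprime δ f
      · have hfM' : f ∣ M' := by
          have : f ∣ δ * M' := by rw [← hM', hn]; exact dvd_mul_right _ _
          exact hco.symm.dvd_of_dvd_mul_left this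
        rw [ih M' ?_ hM'0 hfM' ?_, mul_zero]
        · rw [hM']
          have : 2 ≤ δ := by omega
          nlinarith
        · intro h
          apply hMκ
          rw [hM']
          push_cast
          rw [h, mul_zero]
      · have : ¬ IsUnit ((δ : ℕ) : ZMod f) := by
          rw [ZMod.isUnit_iff_coprime]
          exact hco
        rw [χ.map_nonunit this, zero_mul]
    rw [h3, Finset.sum_eq_single_of_mem 1 (Nat.one_mem_divisors.2 hM.ne') h4] at h2
    exact h2

end

end Pool.Agent.Helper85.GP.Imp
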