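import Mathlib
import Pool.Agent.Helper85.GP.Imp

/-!
# Linear independence bounds the number of characters with a unit value from below
-/

set_option autoImplicit false

namespace Pool.Agent.Helper85.GP.Lin

open Finset Polynomial Pool.Agent.Y18.GX

section red

variable (B : ValuationSubring ℂ)

/-- the reduction of a character -/
noncomputable def rc {N : ℕ} (hN : N ≠ 0) (ψ : DirichletCharacter ℂ N) :
    MulChar (ZMod N) (IsLocalRing.ResidueField B) :=
  (liftChar B ψ (char_mem B hN ψ)).ringHomComp (IsLocalRing.residue B)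

lemma rc_apply {N : ℕ} (hN : N ≠ 0) (ψ : DirichletCharacter ℂ N) (a : ZMod N) :
    rc B hN ψ a = IsLocalRing.residue B ⟨ψ a, char_mem B hN ψ a⟩ := rfl

/-- orthogonality after reduction -/
lemma orth {N : ℕ} (hN : N ≠ 0) {a : ZMod N} (ha : IsUnit a) (b : ZMod N) :
    ∑ ψ : DirichletCharacter ℂ N, rc B hN ψ a⁻¹ * rc B hN ψ b =
      if a = b then ((N.totient : ℕ) : IsLocalRing.ResidueField B) else 0 := by
  have : NeZero N := ⟨hN⟩
  have h1 := DirichletCharacter.sum_char_inv_mul_char_eq ℂ ha b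
  have h2 : ∑ ψ : DirichletCharacter ℂ N,
      ((⟨ψ a⁻¹, char_mem B hN ψ a⁻¹⟩ : B) * ⟨ψ b, char_mem B hN ψ b⟩) =
      if a = b then ((N.totient : ℕ) : B) else 0 := by
    apply Subtype.ext
    have h3 : ((∑ ψ : DirichletCharacter ℂ N,
      ((⟨ψ a⁻¹, char_mem B hN ψ a⁻¹⟩ : B) * ⟨ψ b, char_mem B hN ψ b⟩) : B) : ℂ) =
      B.subtype (∑ ψ : DirichletCharacter ℂ N,
      ((⟨ψ a⁻¹, char_mem B hN ψ a⁻¹⟩ : B) * ⟨ψ b, char_mem B hN ψ b⟩)) := rfl
    rw [h3, map_sum]
    have h4 : ∀ ψ ∈ (Finset.univ : Finset (DirichletCharacter ℂ N)),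
        B.subtype ((⟨ψ a⁻¹, char_mem B hN ψ a⁻¹⟩ : B) * ⟨ψ b, char_mem B hN ψ b⟩) = ψ a⁻¹ * ψ b := by
      intro ψ _
      rfl
    rw [Finset.sum_congr rfl h4, h1]
    split_ifs
    · simp
    · rfl
  have h5 := congrArg (IsLocalRing.residue B) h2
  rw [map_sum] at h5
  simp only [map_mul] at h5
  rw [apply_ite (IsLocalRing.residue B), map_natCast, map_zero] at h5
  exact h5

/-- the sum of a nontrivial character -/
lemma sum_rc {N : ℕ} (hN : N ≠ 0) (ψ : DirichletCharacter ℂ N) (hψ : ψ ≠ 1) :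
    ∑ r ∈ range N, rc B hN ψ (r : ZMod N) = 0 := by
  have : NeZero N := ⟨hN⟩
  have h1 : ∑ a : ZMod N, ψ a = 0 := MulChar.sum_eq_zero_of_ne_one hψ
  have h2 : ∑ r ∈ range N, ψ (r : ZMod N) = 0 := by
    rw [← h1]
    refine Finset.sum_nbij' (fun r : ℕ => (r : ZMod N)) (fun a : ZMod N => a.val) ?_ ?_ ?_ ?_ ?_
    · intro r _; exact mem_univ _
    · intro a _; exact mem_range.2 (ZMod.val_lt a)
    · intro r hr; exact ZMod.val_cast_of_lt (mem_range.1 hr)
    · intro a _; exact ZMod.natCast_zmod_val a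
    · intro r _; rfl
  have h3 : ∑ r ∈ range N, (⟨ψ (r : ZMod N), char_mem B hN ψ (r : ZMod N)⟩ : B) = 0 := by
    apply Subtype.ext
    have h3 : ((∑ r ∈ range N, (⟨ψ (r : ZMod N), char_mem B hN ψ (r : ZMod N)⟩ : B) : B) : ℂ) =
      B.subtype (∑ r ∈ range N, (⟨ψ (r : ZMod N), char_mem B hN ψ (r : ZMod N)⟩ : B)) := rfl
    rw [h3, map_sum]
    exact h2
  have h4 := congrArg (IsLocalRing.residue B) h3
  rw [map_sum, map_zero] at h4
  exact h4

end red

section unit

variable (B : ValuationSubring ℂ) {p : ℕ} (hp : p.Prime) (hB : B.valuation (p : ℂ) < 1)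

/-- the polynomial in the residue field -/
noncomputable def PP (m : ℕ) : (IsLocalRing.ResidueField B)[X] :=
  (FF m).map (Int.castRingHom (IsLocalRing.ResidueField B))

lemma PP_eval (m : ℕ) (x : IsLocalRing.ResidueField B) : (PP B m).eval x = aeval x (FF m) := by
  rw [PP, eval_map, aeval_def]
  rfl

/-- reflection -/
lemma PP_refl (m : ℕ) (x : IsLocalRing.ResidueField B) : (PP B m).eval (1 - x) =
    (-1) ^ m * (PP B m).eval x + (((FF m).eval 1 : ℤ) : IsLocalRing.ResidueField B) := by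
  have h := FF_aeval_refl (k := IsLocalRing.ResidueField B) m x
  rw [PP, eval_map, eval_map]
  rw [aeval_def, aeval_def] at h
  have e : ∀ f : ℤ →+* IsLocalRing.ResidueField B, f = Int.castRingHom (IsLocalRing.ResidueField B) :=
    fun f => Subsingleton.elim _ _
  refine (eval₂_congr (e _).symm rfl rfl).trans (h.trans ?_)
  congr 2

include hp hB

/-- a primitive character with nonzero reduced sum has a unit value -/
theorem unit_of_sum {f m : ℕ} (hf : f ≠ 0) (hpf : ¬ p ∣ f) (hm : 1 ≤ m) (hmp : m < p)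
    (ψ : DirichletCharacter ℂ f) (hψ : ψ ≠ 1)
    (h : ∑ r ∈ range f, rc B hf ψ (r : ZMod f) *
      (PP B m).eval ((r : IsLocalRing.ResidueField B) / (f : IsLocalRing.ResidueField B)) ≠ 0) :
    B.valuation (genBernoulli m ψ / m) = 1 := by
  have hch := charP_res B hp hB
  have : NeZero f := ⟨hf⟩
  have hf1 : f ≠ 1 := by
    rintro rfl
    exact hψ (DirichletCharacter.level_one ψ)
  have hpm : ¬ p ∣ m := fun h => by
    have := Nat.le_of_dvd (by omega) h
    omega
  have hpfac : ¬ p ∣ m.factorial := fun h => by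
    have := (hp.dvd_factorial).1 h
    omega
  -- an inverse of `f`
  have huf : IsUnit ((f : ℕ) : B) := by
    rw [← IsLocalRing.residue_ne_zero_iff_isUnit, map_natCast]
    intro h
    exact hpf ((CharP.cast_eq_zero_iff (IsLocalRing.ResidueField B) p f).1 h)
  obtain ⟨ν, hν⟩ := huf.exists_left_inv
  have hfC : (f : ℂ) ≠ 0 := by exact_mod_cast hf
  have hνC : (ν : ℂ) = (f : ℂ)⁻¹ := by
    have := congrArg (Subtype.val) hν
    push_cast at this
    exact eq_inv_of_mul_eq_one_left this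
  have hfκ : ((f : ℕ) : IsLocalRing.ResidueField B) ≠ 0 := by
    intro h
    exact hpf ((CharP.cast_eq_zero_iff (IsLocalRing.ResidueField B) p f).1 h)
  have hνκ : IsLocalRing.residue B ν = ((f : ℕ) : IsLocalRing.ResidueField B)⁻¹ := by
    have := congrArg (IsLocalRing.residue B) hν
    rw [map_mul, map_natCast, map_one] at this
    exact eq_inv_of_mul_eq_one_left this
  set t : B := ∑ r ∈ range f, (⟨ψ (r : ZMod f), char_mem B hf ψ (r : ZMod f)⟩ : B) *
    aeval ((r : B) * ν) (FF m) with ht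
  have h1 : IsLocalRing.residue B t ≠ 0 := by
    rw [ht, map_sum]
    intro h2
    apply h
    rw [← h2]
    refine Finset.sum_congr rfl fun r _ => ?_
    rw [map_mul]
    congr 1
    rw [PP_eval, div_eq_mul_inv, ← hνκ]
    have h3 : IsLocalRing.residue B ((r : B) * ν) = (r : IsLocalRing.ResidueField B) *
      IsLocalRing.residue B ν := by rw [map_mul, map_natCast]
    rw [← h3]
    have h4 := Polynomial.hom_eval₂ (FF m) (algebraMap ℤ B) (IsLocalRing.residue B) ((r : B) * ν)
    rw [aeval_def, aeval_def, h4]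
    congr 1
  have h2 := val_of_res B t h1
  -- the complex sum
  have h3 : (t : ℂ) = ∑ r ∈ range f, ψ (r : ZMod f) * aeval (((r : ℚ) / f : ℚ) : ℂ) (FF m) := by
    have h4 : (t : ℂ) = B.subtype t := rfl
    rw [h4, ht, map_sum]
    refine Finset.sum_congr rfl fun r _ => ?_
    rw [map_mul]
    congr 1
    have h5 := Polynomial.hom_eval₂ (FF m) (algebraMap ℤ B) B.subtype ((r : B) * ν)
    rw [aeval_def, aeval_def, h5]
    have h6 : B.subtype ((r : B) * ν) = (((r : ℚ) / f : ℚ) : ℂ) := by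
      rw [map_mul, map_natCast]
      push_cast
      rw [div_eq_mul_inv, ← hνC]
      rfl
    rw [h6]
    congr 1
  have h0 : ∑ r ∈ range f, ψ (r : ZMod f) = 0 := by
    have h1 : ∑ a : ZMod f, ψ a = 0 := MulChar.sum_eq_zero_of_ne_one hψ
    rw [← h1]
    refine Finset.sum_nbij' (fun r : ℕ => (r : ZMod f)) (fun a : ZMod f => a.val) ?_ ?_ ?_ ?_ ?_
    · intro r _; exact mem_univ _
    · intro a _; exact mem_range.2 (ZMod.val_lt a)
    · intro r hr; exact ZMod.val_cast_of_lt (mem_range.1 hr)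
    · intro a _; exact ZMod.natCast_zmod_val a
    · intro r _; rfl
  have h4 : (t : ℂ) = (m.factorial : ℂ) * ∑ r ∈ range f, ψ (r : ZMod f) *
      (((Polynomial.bernoulli m).eval ((r : ℚ) / f) : ℚ) : ℂ) := by
    rw [h3]
    have h5 : ∀ r ∈ range f, ψ (r : ZMod f) * aeval (((r : ℚ) / f : ℚ) : ℂ) (FF m) =
        (m.factorial : ℂ) * (ψ (r : ZMod f) * (((Polynomial.bernoulli m).eval ((r : ℚ) / f) : ℚ) : ℂ)) -
        (m.factorial : ℂ) * ((_root_.bernoulli m : ℚ) : ℂ) * ψ (r : ZMod f) := by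
      intro r _
      rw [FF_eval]
      ring
    rw [Finset.sum_congr rfl h5, Finset.sum_sub_distrib, ← Finset.mul_sum, ← Finset.mul_sum, h0, mul_zero,
      sub_zero]
  have h5 : ∑ a ∈ Icc 1 f, ψ (a : ZMod f) * (((Polynomial.bernoulli m).eval ((a : ℚ) / f) : ℚ) : ℂ) =
      ∑ r ∈ range f, ψ (r : ZMod f) * (((Polynomial.bernoulli m).eval ((r : ℚ) / f) : ℚ) : ℂ) := by
    have h6 : ψ ((0 : ℕ) : ZMod f) = 0 := by
      rw [Nat.cast_zero]
      exact DirichletCharacter.map_zero' ψ hf1
    have h7 : ψ ((f : ℕ) : ZMod f) = 0 := by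
      rw [ZMod.natCast_self]
      exact DirichletCharacter.map_zero' ψ hf1
    have h8 : ∑ r ∈ range (f + 1), ψ (r : ZMod f) *
        (((Polynomial.bernoulli m).eval ((r : ℚ) / f) : ℚ) : ℂ) =
        ∑ r ∈ range f, ψ (r : ZMod f) * (((Polynomial.bernoulli m).eval ((r : ℚ) / f) : ℚ) : ℂ) := by
      rw [Finset.sum_range_succ, h7, zero_mul, add_zero]
    rw [← h8, Finset.range_eq_Ico, Finset.sum_eq_sum_Ico_succ_bot (by omega), h6, zero_mul, zero_add]
    rfl
  have h6 : genBernoulli m ψ / m = (f : ℂ) ^ (m - 1) * ((m.factorial : ℂ))⁻¹ * ((m : ℂ))⁻¹ * (t : ℂ) := by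
    rw [h4, genBernoulli, h5]
    have h7 : (m.factorial : ℂ) ≠ 0 := by exact_mod_cast m.factorial_ne_zero
    have h8 : (m : ℂ) ≠ 0 := by exact_mod_cast (by omega : m ≠ 0)
    field_simp
  rw [h6, map_mul, map_mul, map_mul, map_pow, map_inv₀, map_inv₀, nat_val hp hB hpf, nat_val hp hB hpfac,
    nat_val hp hB hpm, h2]
  simp

/-- the parity -/
theorem parity {f m : ℕ} (hf : f ≠ 0) (hp2 : p ≠ 2)
    (ψ : DirichletCharacter ℂ f) (hψ : ψ ≠ 1)
    (h : ∑ r ∈ range f, rc B hf ψ (r : ZMod f) *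
      (PP B m).eval ((r : IsLocalRing.ResidueField B) / (f : IsLocalRing.ResidueField B)) ≠ 0)
    (hpf : ¬ p ∣ f) : ψ (-1) = (-1) ^ m := by
  have hch := charP_res B hp hB
  have : NeZero f := ⟨hf⟩
  have hf1 : f ≠ 1 := by
    rintro rfl
    exact hψ (DirichletCharacter.level_one ψ)
  have hfκ : ((f : ℕ) : IsLocalRing.ResidueField B) ≠ 0 := by
    intro h
    exact hpf ((CharP.cast_eq_zero_iff (IsLocalRing.ResidueField B) p f).1 h)
  by_contra hne
  have hsq : ψ (-1) * ψ (-1) = 1 := by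
    rw [← map_mul, neg_mul_neg, one_mul, map_one]
  have hm2 : ((-1 : ℂ) ^ m) * ((-1 : ℂ) ^ m) = 1 := by
    rw [← mul_pow, neg_mul_neg, one_mul, one_pow]
  have hψ1 : ψ (-1) = -(-1) ^ m := by
    have h1 : (ψ (-1) - (-1) ^ m) * (ψ (-1) + (-1) ^ m) = 0 := by
      linear_combination hsq - hm2
    rcases mul_eq_zero.1 h1 with h2 | h2
    · exact absurd (sub_eq_zero.1 h2) hne
    · exact eq_neg_of_add_eq_zero_left h2
  have hrc : rc B hf ψ (-1) = -(-1) ^ m := by
    rw [rc_apply]
    have : (⟨ψ (-1), char_mem B hf ψ (-1)⟩ : B) = -(-1) ^ m := by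
      apply Subtype.ext
      push_cast
      exact hψ1
    rw [this, map_neg, map_pow, map_neg, map_one]
  -- the sum over residue classes
  set A := ∑ r ∈ range f, rc B hf ψ (r : ZMod f) *
      (PP B m).eval ((r : IsLocalRing.ResidueField B) / (f : IsLocalRing.ResidueField B)) with hA
  have h1 : A = ∑ x : ZMod f, rc B hf ψ x *
      (PP B m).eval ((x.val : IsLocalRing.ResidueField B) / (f : IsLocalRing.ResidueField B)) := by
    rw [hA]
    refine Finset.sum_nbij' (fun r : ℕ => (r : ZMod f)) (fun a : ZMod f => a.val) ?_ ?_ ?_ ?_ ?_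
    · intro r _; exact mem_univ _
    · intro a _; exact mem_range.2 (ZMod.val_lt a)
    · intro r hr; exact ZMod.val_cast_of_lt (mem_range.1 hr)
    · intro a _; exact ZMod.natCast_zmod_val a
    · intro r hr
      rw [ZMod.val_cast_of_lt (mem_range.1 hr)]
  have h0 : ∑ x : ZMod f, rc B hf ψ x = 0 := by
    rw [← sum_rc B hf ψ hψ]
    symm
    refine Finset.sum_nbij' (fun r : ℕ => (r : ZMod f)) (fun a : ZMod f => a.val) ?_ ?_ ?_ ?_ ?_
    · intro r _; exact mem_univ _
    · intro a _; exact mem_range.2 (ZMod.val_lt a)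
    · intro r hr; exact ZMod.val_cast_of_lt (mem_range.1 hr)
    · intro a _; exact ZMod.natCast_zmod_val a
    · intro r _; rfl
  have h2 : A = ∑ x : ZMod f, rc B hf ψ (-x) *
      (PP B m).eval (((-x).val : IsLocalRing.ResidueField B) / (f : IsLocalRing.ResidueField B)) := by
    rw [h1]
    exact (Fintype.sum_equiv (Equiv.neg (ZMod f)) _ _ (fun x => rfl)).symm
  have h3 : ∀ x : ZMod f, rc B hf ψ (-x) *
      (PP B m).eval (((-x).val : IsLocalRing.ResidueField B) / (f : IsLocalRing.ResidueField B)) =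
      -(rc B hf ψ x * (PP B m).eval ((x.val : IsLocalRing.ResidueField B) / (f : IsLocalRing.ResidueField B))) -
      (-1) ^ m * (((FF m).eval 1 : ℤ) : IsLocalRing.ResidueField B) * rc B hf ψ x := by
    intro x
    by_cases hx : x = 0
    · subst hx
      have h4 : rc B hf ψ 0 = 0 := by
        apply (rc B hf ψ).map_nonunit
        intro hu
        have : (0 : ZMod f) = ((0 : ℕ) : ZMod f) := by rw [Nat.cast_zero]
        rw [this, ZMod.isUnit_iff_coprime, Nat.coprime_zero_left] at hu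
        exact hf1 hu
      rw [neg_zero, h4]
      ring
    · have h5 : (-x).val = f - x.val := by
        have : NeZero x := ⟨hx⟩
        rw [ZMod.neg_val, if_neg hx]
      have h6 : rc B hf ψ (-x) = -(-1) ^ m * rc B hf ψ x := by
        rw [← hrc, ← map_mul, neg_one_mul]
      have h7 : (((-x).val : ℕ) : IsLocalRing.ResidueField B) / (f : IsLocalRing.ResidueField B) =
          1 - (x.val : IsLocalRing.ResidueField B) / (f : IsLocalRing.ResidueField B) := by
        rw [h5, Nat.cast_sub (ZMod.val_lt x).le]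
        field_simp
      have hmκ : ((-1 : IsLocalRing.ResidueField B) ^ m) * (-1) ^ m = 1 := by
        rw [← mul_pow, neg_mul_neg, one_mul, one_pow]
      rw [h6, h7, PP_refl]
      linear_combination (-(rc B hf ψ x) * (PP B m).eval ((x.val : IsLocalRing.ResidueField B) /
        (f : IsLocalRing.ResidueField B))) * hmκ
  rw [Finset.sum_congr rfl (fun x _ => h3 x), Finset.sum_sub_distrib, Finset.sum_neg_distrib, ← h1,
    ← Finset.mul_sum, h0, mul_zero, sub_zero] at h2
  have h4 : ((2 : ℕ) : IsLocalRing.ResidueField B) * A = 0 := by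
    push_cast
    linear_combination h2
  rcases mul_eq_zero.1 h4 with h5 | h5
  · have h6 := (CharP.cast_eq_zero_iff (IsLocalRing.ResidueField B) p 2).1 h5
    exact hp2 ((Nat.prime_dvd_prime_iff_eq hp Nat.prime_two).1 h6)
  · exact h h5

omit hp hB in
/-- the difference of `PP` -/
lemma PP_diff (m : ℕ) (x : IsLocalRing.ResidueField B) : (PP B m).eval (x + 1) - (PP B m).eval x =
    ((m.factorial * m : ℕ) : IsLocalRing.ResidueField B) * x ^ (m - 1) := by
  have h1 : (FF m).comp (X + 1) - FF m = C ((m.factorial * m : ℕ) : ℤ) * X ^ (m - 1) := by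
    have hinj : Function.Injective (Polynomial.map (Int.castRingHom ℚ)) :=
      Polynomial.map_injective _ (Int.castRingHom ℚ).injective_int
    apply hinj
    rw [Polynomial.map_sub, Polynomial.map_comp, FF_map, Polynomial.map_mul, Polynomial.map_pow,
      Polynomial.map_C, Polynomial.map_X, Polynomial.map_add, Polynomial.map_X, Polynomial.map_one]
    apply Polynomial.funext
    intro y
    simp only [eval_sub, eval_comp, eval_mul, eval_C, eval_add, eval_X, eval_one, eval_pow, eq_intCast]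
    have h2 := Polynomial.bernoulli_eval_one_add m y
    rw [add_comm y 1, h2]
    push_cast
    ring
  have h2 := congrArg (fun q => aeval x q) h1
  simp only [map_sub, aeval_comp, map_add, aeval_X, map_one, map_mul, map_pow, aeval_C] at h2
  rw [PP_eval, PP_eval, h2]
  simp

omit hp hB in
lemma PP_deg (m : ℕ) : (PP B m).natDegree ≤ m :=
  (natDegree_map_le).trans (FF_natDegree m)

end unit

end Pool.Agent.Helper85.GP.Lin
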