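import Mathlib
import Pool.Agent.Helper85.GP.Lin

/-!
# The number of characters with a unit value is at least the number of independent functions
-/

set_option autoImplicit false

namespace Pool.Agent.Helper85.GP.Lin

open Finset Polynomial Pool.Agent.Y18.GX

section

variable (B : ValuationSubring ℂ) {p : ℕ} (hp : p.Prime) (hB : B.valuation (p : ℂ) < 1)

/-- the sum of level `M` -/
noncomputable def AA {M : ℕ} (hM : M ≠ 0) (m : ℕ) (ψ : DirichletCharacter ℂ M) : IsLocalRing.ResidueField B :=
  ∑ a ∈ range M, rc B hM ψ (a : ZMod M) *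
    (PP B m).eval ((a : IsLocalRing.ResidueField B) / (M : IsLocalRing.ResidueField B))

include hp hB in
/-- a character `ψ'` of level `M ∣ N` with nonzero sum gives an element of `unitSet` -/
theorem mem_unit {N M m : ℕ} (hN : 2 ≤ N) (hpN : ¬ p ∣ N * N.totient) (hm : 1 ≤ m) (hmp : m < p)
    (hM : M ≠ 0) (hMN : M ∣ N) (ψ' : DirichletCharacter ℂ M) (hA : AA B hM m ψ' ≠ 0) :
    DirichletCharacter.changeLevel hMN ψ' ∈ insert 1 (unitSet B N m) := by
  have hch := charP_res B hp hB
  have hN0 : NeZero N := ⟨by omega⟩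
  have hM0 : NeZero M := ⟨hM⟩
  have hpN1 : ¬ p ∣ N := fun h => hpN (h.mul_right _)
  have hpM : ¬ p ∣ M := fun h => hpN1 (h.trans hMN)
  set ψ := DirichletCharacter.changeLevel hMN ψ' with hψdef
  by_cases hψ : ψ = 1
  · exact Or.inl hψ
  right
  have hf0 : ψ.conductor ≠ 0 := ψ.conductor_ne_zero
  set f := ψ.conductor with hfdef
  have hfM : f ∣ M := by
    apply DirichletCharacter.conductor_dvd_of_mem_conductorSet
    exact ⟨hMN, ψ', rfl⟩
  have hpf : ¬ p ∣ f := fun h => hpM (h.trans hfM)
  set ψ₀ := ψ.primitiveCharacter with hψ₀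
  have hψ₀1 : ψ₀ ≠ 1 := by
    intro h
    apply hψ
    have h1 := ψ.changeLevel_primitiveCharacter
    rw [← hψ₀, h, DirichletCharacter.changeLevel_one] at h1
    exact h1.symm
  have hψ' : DirichletCharacter.changeLevel hfM ψ₀ = ψ' := by
    apply DirichletCharacter.changeLevel_injective hMN
    rw [← DirichletCharacter.changeLevel_trans]
    exact ψ.changeLevel_primitiveCharacter
  -- comparison of the reductions
  have hcmp : ∀ a : ℕ, a.Coprime M → rc B hM ψ' (a : ZMod M) = rc B hf0 ψ₀ (a : ZMod f) := by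
    intro a ha
    rw [rc_apply, rc_apply]
    congr 1
    apply Subtype.ext
    simp only
    have h1 := DirichletCharacter.changeLevel_eq_cast_of_dvd' ψ₀ hfM (a := (a : ℤ))
      (Nat.isCoprime_iff_coprime.2 ha)
    rw [hψ'] at h1
    exact_mod_cast h1
  have hMκ : ((M : ℕ) : IsLocalRing.ResidueField B) ≠ 0 := by
    intro h
    exact hpM ((CharP.cast_eq_zero_iff (IsLocalRing.ResidueField B) p M).1 h)
  have hA0 : ∑ r ∈ range f, rc B hf0 ψ₀ (r : ZMod f) *
      (PP B m).eval ((r : IsLocalRing.ResidueField B) / (f : IsLocalRing.ResidueField B)) ≠ 0 := by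
    intro h0
    apply hA
    have h1 := Imp.coprime_sum p m hm hmp (PP B m)
      (((m.factorial * m : ℕ) : IsLocalRing.ResidueField B)) (PP_deg B m) (PP_diff B m) f
      (Nat.pos_of_ne_zero hf0) (rc B hf0 ψ₀) (sum_rc B hf0 ψ₀ hψ₀1) h0 M (Nat.pos_of_ne_zero hM) hfM hMκ
    rw [AA, ← h1, Finset.sum_filter]
    refine Finset.sum_congr rfl fun a _ => ?_
    split_ifs with h
    · rw [hcmp a h]
    · have : ¬ IsUnit ((a : ℕ) : ZMod M) := by
        rw [ZMod.isUnit_iff_coprime]
        exact h
      rw [(rc B hM ψ').map_nonunit this, zero_mul]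
  have hp2 : p ≠ 2 := by
    rintro rfl
    have h3 : 2 < N := by
      rcases Nat.lt_or_ge 2 N with h | h
      · exact h
      · exfalso
        have : N = 2 := le_antisymm h hN
        rw [this] at hpN1
        exact hpN1 (dvd_refl 2)
    exact hpN ((Nat.totient_even h3).two_dvd.mul_left _)
  refine ⟨hψ, ?_, ?_⟩
  · have h1 := parity B hp hB (m := m) hf0 hp2 ψ₀ hψ₀1 hA0 hpf
    have h2 := ψ.primitiveCharacter_apply_of_isCoprime (a := -1) (isCoprime_one_left.neg_left)
    rw [← hψ₀] at h2
    push_cast at h2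
    rw [← h2]
    exact h1
  · exact unit_of_sum B hp hB hf0 hpf hm hmp ψ₀ hψ₀1 hA0

/-- inversion: the value of `P` at `{c / M}` in terms of the characters modulo `M` -/
theorem inversion {M m : ℕ} (hM : M ≠ 0) (c : (ZMod M)ˣ) :
    ∑ ψ : DirichletCharacter ℂ M, AA B hM m ψ * rc B hM ψ ((c⁻¹ : (ZMod M)ˣ) : ZMod M) =
      (M.totient : IsLocalRing.ResidueField B) *
        (PP B m).eval (((c : ZMod M).val : IsLocalRing.ResidueField B) / (M : IsLocalRing.ResidueField B)) := by
  have hM0 : NeZero M := ⟨hM⟩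
  have h1 : ∀ ψ : DirichletCharacter ℂ M, AA B hM m ψ * rc B hM ψ ((c⁻¹ : (ZMod M)ˣ) : ZMod M) =
      ∑ a ∈ range M, (PP B m).eval ((a : IsLocalRing.ResidueField B) / (M : IsLocalRing.ResidueField B)) *
        (rc B hM ψ ((c : ZMod M))⁻¹ * rc B hM ψ (a : ZMod M)) := by
    intro ψ
    rw [AA, Finset.sum_mul]
    refine Finset.sum_congr rfl fun a _ => ?_
    rw [← ZMod.inv_coe_unit]
    ring
  rw [Finset.sum_congr rfl (fun ψ _ => h1 ψ), Finset.sum_comm]
  have h2 : ∀ a ∈ range M, ∑ ψ : DirichletCharacter ℂ M,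
      (PP B m).eval ((a : IsLocalRing.ResidueField B) / (M : IsLocalRing.ResidueField B)) *
        (rc B hM ψ ((c : ZMod M))⁻¹ * rc B hM ψ (a : ZMod M)) =
      if a = (c : ZMod M).val then (M.totient : IsLocalRing.ResidueField B) *
        (PP B m).eval (((c : ZMod M).val : IsLocalRing.ResidueField B) / (M : IsLocalRing.ResidueField B))
      else 0 := by
    intro a ha
    rw [← Finset.mul_sum, orth B hM c.isUnit]
    by_cases h : a = (c : ZMod M).val
    · rw [if_pos h, if_pos, h]
      · ring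
      · rw [h, ZMod.natCast_zmod_val]
    · rw [if_neg h, if_neg, mul_zero]
      intro h3
      apply h
      rw [h3, ZMod.val_cast_of_lt (mem_range.1 ha)]
  rw [Finset.sum_congr rfl h2, Finset.sum_ite_eq', if_pos (mem_range.2 (ZMod.val_lt _))]

end

theorem main : S_Lin := by
  intro p N m hp hpN hN hm hmp B hB S hS hind
  classical
  have hch := charP_res B hp hB
  have hN0 : NeZero N := ⟨by omega⟩
  have hN1 : N ≠ 0 := by omega
  have hpN1 : ¬ p ∣ N := fun h => hpN (h.mul_right _)
  have hpφ : ¬ p ∣ N.totient := fun h => hpN (h.mul_left _)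
  let κ := IsLocalRing.ResidueField B
  have hfin : (insert 1 (unitSet B N m)).Finite := Set.toFinite _
  -- the functions
  let F : ℕ → ((ZMod N)ˣ → κ) := fun Q x => (PP B m).eval (((Q * (x : ZMod N).val % N : ℕ) : κ) / (N : κ))
  let E : DirichletCharacter ℂ N → ((ZMod N)ˣ → κ) := fun ψ x => rc B hN1 ψ ((x⁻¹ : (ZMod N)ˣ) : ZMod N)
  have hLI : LinearIndependent κ (fun Q : S => F (Q : ℕ)) := by
    rw [Fintype.linearIndependent_iff]
    intro g hg Q
    have h1 := hind (fun n => if h : n ∈ S then g ⟨n, h⟩ else 0) ?_ Q Q.2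
    · simpa using h1
    · intro b hb
      have h2 := congrFun hg (ZMod.unitOfCoprime b hb)
      rw [Finset.sum_apply] at h2
      simp only [Pi.smul_apply, smul_eq_mul, Pi.zero_apply] at h2
      rw [← Finset.sum_coe_sort]
      rw [← h2]
      refine Finset.sum_congr rfl fun c _ => ?_
      rw [dif_pos c.2]
      congr 1
      simp only [F, ZMod.coe_unitOfCoprime, ZMod.val_natCast]
      have h3 : (c : ℕ) * b % N = (c : ℕ) * (b % N) % N := by
        rw [Nat.mul_mod, Nat.mul_mod (c : ℕ) (b % N), Nat.mod_mod]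
      rw [h3]
      rfl
  have hspan : ∀ Q : S, F (Q : ℕ) ∈ Submodule.span κ (E '' (insert 1 (unitSet B N m))) := by
    rintro ⟨Q, hQ⟩
    obtain ⟨hQ0, hQN⟩ := hS Q hQ
    -- the level `M`
    set d := Nat.gcd Q N with hd
    have hd0 : 0 < d := Nat.gcd_pos_of_pos_left _ hQ0
    obtain ⟨Q', hQ'⟩ : d ∣ Q := Nat.gcd_dvd_left _ _
    obtain ⟨M, hM'⟩ : d ∣ N := Nat.gcd_dvd_right _ _
    have hMN : M ∣ N := ⟨d, by rw [hM']; ring⟩
    have hM : M ≠ 0 := by
      rintro rfl
      rw [mul_zero] at hM'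
      omega
    have hM0 : NeZero M := ⟨hM⟩
    have hco : Q'.Coprime M := by
      have h1 : d * Nat.gcd Q' M = d * 1 := by
        rw [← Nat.gcd_mul_left, ← hQ', ← hM', mul_one]
      exact Nat.eq_of_mul_eq_mul_left hd0 h1
    have hpφM : ((M.totient : ℕ) : κ) ≠ 0 := by
      intro h
      exact hpφ (((CharP.cast_eq_zero_iff κ p _).1 h).trans (Nat.totient_dvd_of_dvd hMN))
    have hdκ : ((d : ℕ) : κ) ≠ 0 := by
      intro h
      exact hpN1 (((CharP.cast_eq_zero_iff κ p _).1 h).trans (Nat.gcd_dvd_right _ _))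
    let uQ : (ZMod M)ˣ := ZMod.unitOfCoprime Q' hco
    have hF : F Q = ∑ ψ : DirichletCharacter ℂ M, ((M.totient : κ)⁻¹ * (AA B hM m ψ *
        rc B hM ψ ((uQ⁻¹ : (ZMod M)ˣ) : ZMod M))) •
        (fun x : (ZMod N)ˣ => rc B hM ψ (((ZMod.unitsMap hMN x)⁻¹ : (ZMod M)ˣ) : ZMod M)) := by
      funext x
      rw [Finset.sum_apply]
      simp only [Pi.smul_apply, smul_eq_mul]
      have h1 := inversion B (m := m) hM (uQ * ZMod.unitsMap hMN x)
      have h2 : ((uQ * ZMod.unitsMap hMN x : (ZMod M)ˣ) : ZMod M).val = Q' * (x : ZMod N).val % M := by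
        rw [Units.val_mul, ZMod.coe_unitOfCoprime, ZMod.unitsMap_val]
        have h3 : ((x : ZMod N).cast : ZMod M) = (((x : ZMod N).val : ℕ) : ZMod M) := by
          rw [ZMod.cast_eq_val]
        rw [h3, ← Nat.cast_mul, ZMod.val_natCast]
      have h4 : F Q x = (PP B m).eval (((Q' * (x : ZMod N).val % M : ℕ) : κ) / (M : κ)) := by
        simp only [F]
        congr 1
        have h5 : Q * (x : ZMod N).val % N = d * (Q' * (x : ZMod N).val % M) := by
          have e1 : Q * (x : ZMod N).val = d * (Q' * (x : ZMod N).val) := by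
            nth_rewrite 1 [hQ']
            ring
          have e2 : (d * (Q' * (x : ZMod N).val)) % (d * M) = d * (Q' * (x : ZMod N).val % M) :=
            Nat.mul_mod_mul_left _ _ _
          rw [e1]
          exact (congrArg (fun z => (d * (Q' * (x : ZMod N).val)) % z) hM').trans e2
        have h6 : (N : κ) = (d : κ) * (M : κ) := by
          rw [← Nat.cast_mul]
          exact congrArg (Nat.cast : ℕ → κ) hM'
        rw [h5, h6, Nat.cast_mul]
        exact mul_div_mul_left _ _ hdκ
      rw [h2] at h1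
      rw [h4]
      have h7 : (PP B m).eval (((Q' * (x : ZMod N).val % M : ℕ) : κ) / (M : κ)) =
          (M.totient : κ)⁻¹ * ((M.totient : κ) *
            (PP B m).eval (((Q' * (x : ZMod N).val % M : ℕ) : κ) / (M : κ))) := by
        rw [← mul_assoc, inv_mul_cancel₀ hpφM, one_mul]
      rw [h7]
      refine (congrArg _ h1.symm).trans ?_
      rw [Finset.mul_sum]
      refine Finset.sum_congr rfl fun ψ _ => ?_
      rw [mul_inv, Units.val_mul, map_mul]
      ring
    have hFE : F ((⟨Q, hQ⟩ : S) : ℕ) = F Q := rfl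
    rw [hFE, hF]
    refine Submodule.sum_mem _ fun ψ _ => ?_
    by_cases hA : AA B hM m ψ = 0
    · rw [hA, zero_mul, mul_zero, zero_smul]
      exact Submodule.zero_mem _
    · refine Submodule.smul_mem _ _ (Submodule.subset_span ?_)
      refine ⟨DirichletCharacter.changeLevel hMN ψ, mem_unit B hp hB hN hpN hm hmp hM hMN ψ hA, ?_⟩
      funext x
      simp only [E]
      rw [rc_apply, rc_apply]
      congr 1
      apply Subtype.ext
      simp only
      rw [DirichletCharacter.changeLevel_eq_cast_of_dvd ψ hMN x⁻¹, ← map_inv, ZMod.unitsMap_val]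
  -- dimensions
  have h1 : Module.finrank κ (Submodule.span κ (Set.range (fun Q : S => F (Q : ℕ)))) = S.card := by
    rw [finrank_span_eq_card hLI, Fintype.card_coe]
  have hE : (E '' (insert 1 (unitSet B N m))).Finite := hfin.image E
  have h2 : Submodule.span κ (Set.range (fun Q : S => F (Q : ℕ))) ≤
      Submodule.span κ (E '' (insert 1 (unitSet B N m))) := by
    rw [Submodule.span_le]
    rintro _ ⟨Q, rfl⟩
    exact hspan Q
  have : Module.Finite κ (Submodule.span κ (E '' (insert 1 (unitSet B N m)))) :=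
    FiniteDimensional.span_of_finite κ hE
  have h3 := Submodule.finrank_mono h2
  rw [h1] at h3
  have h4 : Module.finrank κ (Submodule.span κ (E '' (insert 1 (unitSet B N m)))) ≤
      (E '' (insert 1 (unitSet B N m))).ncard := by
    have h5 := finrank_span_finset_le_card (R := κ) hE.toFinset
    rw [Set.ncard_eq_toFinset_card _ hE]
    have h6 : ((hE.toFinset : Finset _) : Set ((ZMod N)ˣ → κ)) = E '' (insert 1 (unitSet B N m)) :=
      hE.coe_toFinset
    rw [h6] at h5
    exact h5
  have h5 : (E '' (insert 1 (unitSet B N m))).ncard ≤ (insert 1 (unitSet B N m)).ncard :=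
    Set.ncard_image_le hfin
  have h6 := Set.ncard_insert_le (1 : DirichletCharacter ℂ N) (unitSet B N m)
  omega

end Pool.Agent.Helper85.GP.Lin
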