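import Mathlib
import Pool.Agent.Helper85.GP.Lin2

/-!
# Assembly
-/

set_option autoImplicit false

namespace Pool.Agent.Helper85.GP.Fin

open Finset Polynomial Pool.Agent.Y18.GX Pool.Agent.Helper85.GP.Lin

lemma size {c x : ℝ} {m k : ℕ} (hc : 0 < c) (hx : 2 ≤ x) (hm : 1 ≤ m)
    (h : (24 / c) ^ 5 * ((m : ℝ) ^ 5 * 2 ^ (20 * k)) ≤ x) :
    2 * ((m : ℝ) ^ (1 / 3 : ℝ) * 2 ^ (4 * k) * Real.log x ^ (4 / 3 : ℝ)) ≤ c * x ^ (2 / 3 : ℝ) := by
  have hx0 : 0 < x := by linarith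
  have hx1 : 1 ≤ x := by linarith
  have hm1 : (1 : ℝ) ≤ m := by exact_mod_cast hm
  have h1 : (m : ℝ) ^ (1 / 3 : ℝ) ≤ m := by
    calc (m : ℝ) ^ (1 / 3 : ℝ) ≤ (m : ℝ) ^ (1 : ℝ) :=
          Real.rpow_le_rpow_of_exponent_le hm1 (by norm_num)
      _ = m := Real.rpow_one _
  have h2 : (m : ℝ) * 2 ^ (4 * k) ≤ x ^ (1 / 5 : ℝ) * (c / 24) := by
    have h3 : ((m : ℝ) * 2 ^ (4 * k)) ^ 5 ≤ (x ^ (1 / 5 : ℝ) * (c / 24)) ^ 5 := by
      have e1 : ((m : ℝ) * 2 ^ (4 * k)) ^ 5 = (m : ℝ) ^ 5 * 2 ^ (20 * k) := by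
        rw [mul_pow, ← pow_mul]
        congr 2
        ring
      have e2 : (x ^ (1 / 5 : ℝ) * (c / 24)) ^ 5 = x * (c / 24) ^ 5 := by
        rw [mul_pow, ← Real.rpow_natCast (x ^ (1 / 5 : ℝ)) 5, ← Real.rpow_mul hx0.le]
        norm_num
      rw [e1, e2]
      have h4 : (24 / c) ^ 5 * (c / 24) ^ 5 = 1 := by
        rw [← mul_pow]
        have : 24 / c * (c / 24) = 1 := by field_simp
        rw [this, one_pow]
      have h5 : 0 < (c / 24) ^ 5 := by positivity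
      calc (m : ℝ) ^ 5 * 2 ^ (20 * k) = ((24 / c) ^ 5 * ((m : ℝ) ^ 5 * 2 ^ (20 * k))) * (c / 24) ^ 5 := by
            linear_combination (-((m : ℝ) ^ 5 * 2 ^ (20 * k))) * h4
        _ ≤ x * (c / 24) ^ 5 := mul_le_mul_of_nonneg_right h h5.le
    exact le_of_pow_le_pow_left₀ (by norm_num) (by positivity) h3
  have hL0 : 0 ≤ Real.log x := Real.log_nonneg hx1
  have h6 : Real.log x ^ (4 / 3 : ℝ) ≤ 12 * x ^ (2 / 5 : ℝ) := by
    have h7 : Real.log x ≤ x ^ (3 / 10 : ℝ) / (3 / 10) := Real.log_le_rpow_div hx0.le (by norm_num)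
    calc Real.log x ^ (4 / 3 : ℝ) ≤ (x ^ (3 / 10 : ℝ) / (3 / 10)) ^ (4 / 3 : ℝ) :=
          Real.rpow_le_rpow hL0 h7 (by norm_num)
      _ = (10 / 3 : ℝ) ^ (4 / 3 : ℝ) * x ^ (2 / 5 : ℝ) := by
          have e : x ^ (3 / 10 : ℝ) / (3 / 10) = (10 / 3) * x ^ (3 / 10 : ℝ) := by ring
          rw [e, Real.mul_rpow (by norm_num) (by positivity), ← Real.rpow_mul hx0.le]
          norm_num
      _ ≤ 12 * x ^ (2 / 5 : ℝ) := by
          apply mul_le_mul_of_nonneg_right _ (by positivity)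
          calc (10 / 3 : ℝ) ^ (4 / 3 : ℝ) ≤ (10 / 3 : ℝ) ^ (2 : ℝ) :=
                Real.rpow_le_rpow_of_exponent_le (by norm_num) (by norm_num)
            _ ≤ 12 := by norm_num
  have h8 : x ^ (1 / 5 : ℝ) * x ^ (2 / 5 : ℝ) ≤ x ^ (2 / 3 : ℝ) := by
    rw [← Real.rpow_add hx0]
    exact Real.rpow_le_rpow_of_exponent_le hx1 (by norm_num)
  calc 2 * ((m : ℝ) ^ (1 / 3 : ℝ) * 2 ^ (4 * k) * Real.log x ^ (4 / 3 : ℝ)) ≤
      2 * ((m : ℝ) * 2 ^ (4 * k) * (12 * x ^ (2 / 5 : ℝ))) := by gcongr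
    _ ≤ 2 * ((x ^ (1 / 5 : ℝ) * (c / 24)) * (12 * x ^ (2 / 5 : ℝ))) := by gcongr
    _ = c * (x ^ (1 / 5 : ℝ) * x ^ (2 / 5 : ℝ)) := by ring
    _ ≤ c * x ^ (2 / 3 : ℝ) := by gcongr

/-- from the count of good numbers to the count of characters -/
theorem main (hCnt : S_Cnt) : ∃ c C : ℝ, 0 < c ∧ ∀ p N m : ℕ, p.Prime → ¬ p ∣ N * N.totient → 2 ≤ N → 1 ≤ m →
    m < p → C * ((m : ℝ) ^ 5 * 2 ^ (20 * N.primeFactors.card)) ≤ N →
    ∀ B : ValuationSubring ℂ, B.valuation (p : ℂ) < 1 →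
    c * (N : ℝ) ^ (2 / 3 : ℝ) /
      ((m : ℝ) ^ (1 / 3 : ℝ) * 2 ^ (4 * N.primeFactors.card) * Real.log N ^ (4 / 3 : ℝ)) ≤
      (unitSet B N m).ncard := by
  obtain ⟨c, C, hc, h⟩ := hCnt
  refine ⟨c / 2, max C ((24 / c) ^ 5), by positivity, fun p N m hp hpN hN hm hmp hsize B hB => ?_⟩
  have hpN1 : ¬ p ∣ N := fun h => hpN (h.mul_right _)
  have hpos : (0 : ℝ) ≤ (m : ℝ) ^ 5 * 2 ^ (20 * N.primeFactors.card) := by positivity
  obtain ⟨R, S, hsam, hgood, hcard⟩ := h p N m |> fun _ => h N p m hp hpN1 hN hm hmp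
    ((mul_le_mul_of_nonneg_right (le_max_left _ _) hpos).trans hsize)
  have hsize2 := size hc (by exact_mod_cast hN : (2 : ℝ) ≤ N) hm
    ((mul_le_mul_of_nonneg_right (le_max_right _ _) hpos).trans hsize)
  have hch := charP_res B hp hB
  have hind : Indep ((FF m).map (Int.castRingHom (IsLocalRing.ResidueField B))) N S := by
    refine Core.main (IsLocalRing.ResidueField B) p N m R hp hpN1 hm hmp hsam (PP B m)
      (((m.factorial * m : ℕ) : IsLocalRing.ResidueField B)) (PP_deg B m) ?_ (PP_diff B m) S hgood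
    intro h0
    have h1 := (CharP.cast_eq_zero_iff (IsLocalRing.ResidueField B) p _).1 h0
    rcases (hp.dvd_mul).1 h1 with h2 | h2
    · have := (hp.dvd_factorial).1 h2
      omega
    · have := Nat.le_of_dvd (by omega) h2
      omega
  have hlin := Lin.main p N m hp hpN hN hm hmp B hB S (fun Q hQ => ⟨(hgood Q hQ).1, (hgood Q hQ).2.1⟩) hind
  have hlin' : (S.card : ℝ) ≤ (unitSet B N m).ncard + 1 := by exact_mod_cast hlin
  set D := (m : ℝ) ^ (1 / 3 : ℝ) * 2 ^ (4 * N.primeFactors.card) * Real.log N ^ (4 / 3 : ℝ) with hD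
  have hm1 : (1 : ℝ) ≤ m := by exact_mod_cast hm
  have hlog : 0 < Real.log N := Real.log_pos (by exact_mod_cast (by omega : 1 < N))
  have hDpos : 0 < D := by positivity
  have h1 : 2 ≤ c * (N : ℝ) ^ (2 / 3 : ℝ) / D := by
    rw [le_div_iff₀ hDpos]
    exact hsize2
  have h2 : c / 2 * (N : ℝ) ^ (2 / 3 : ℝ) / D = (c * (N : ℝ) ^ (2 / 3 : ℝ) / D) / 2 := by ring
  rw [h2]
  linarith

end Pool.Agent.Helper85.GP.Fin
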