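import Mathlib
import Pool.Agent.Helper85.GP.Def

/-!
# The good `i` in one window
-/

set_option autoImplicit false

namespace Pool.Agent.Helper85.GP.RowM

open Finset

/-- `i t ≤ n_i < (i + 1) t`, as an equation -/
lemma nn_eq {N t : ℕ} (ht : 0 < t) (i : ℕ) : ∃ r : ℕ, r < t ∧ nn N t i = i * t + r ∧
    N + r + i * t = ((N + t - 1) / t + i) * t := by
  have h1 := Nat.div_add_mod (N + t - 1) t
  have h2 := Nat.mod_lt (N + t - 1) ht
  refine ⟨(N + t - 1) / t * t - N, ?_, ?_, ?_⟩
  · have : t * ((N + t - 1) / t) = (N + t - 1) / t * t := mul_comm _ _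
    omega
  · unfold nn
    have : t * ((N + t - 1) / t) = (N + t - 1) / t * t := mul_comm _ _
    rw [add_mul]
    omega
  · have : t * ((N + t - 1) / t) = (N + t - 1) / t * t := mul_comm _ _
    rw [add_mul]
    omega

lemma nn_lt {N t : ℕ} (ht : 0 < t) (i : ℕ) : nn N t i < (i + 1) * t := by
  obtain ⟨r, h1, h2, -⟩ := nn_eq (N := N) ht i
  rw [h2, add_mul, one_mul]
  omega

lemma nn_add {N t : ℕ} (ht : 0 < t) (i j : ℕ) : nn N t (i + j) = nn N t i + j * t := by
  obtain ⟨r, h1, h2, h3⟩ := nn_eq (N := N) ht i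
  obtain ⟨r', h1', h2', h3'⟩ := nn_eq (N := N) ht (i + j)
  have e : ((N + t - 1) / t + (i + j)) * t = ((N + t - 1) / t + i) * t + j * t := by ring
  rw [e, ← h3] at h3'
  have e2 : (i + j) * t = i * t + j * t := by ring
  rw [e2] at h3' h2'
  omega

/-- `n_i` is positive -/
lemma nn_pos {N t : ℕ} (ht : 2 ≤ t) (hco : t.Coprime N) (i : ℕ) : 0 < nn N t i := by
  obtain ⟨r, h1, h2, h3⟩ := nn_eq (N := N) (show 0 < t by omega) i
  rw [h2]
  rcases Nat.eq_zero_or_pos r with h | h
  · exfalso
    subst h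
    have h4 : t ∣ N := by
      have : N = ((N + t - 1) / t) * t := by
        have e : ((N + t - 1) / t + i) * t = (N + t - 1) / t * t + i * t := by ring
        omega
      rw [this]
      exact dvd_mul_left _ _
    have h5 := Nat.Coprime.eq_one_of_dvd hco h4
    omega
  · omega

/-- `n_i = -N` modulo the divisors of `t` -/
lemma nn_dvd {N t p : ℕ} (ht : 0 < t) (hpt : p ∣ t) (hpN : ¬ p ∣ N) (i : ℕ) : ¬ p ∣ nn N t i := by
  obtain ⟨r, h1, h2, h3⟩ := nn_eq (N := N) ht i
  intro h
  apply hpN
  have h4 : N + nn N t i = ((N + t - 1) / t + i) * t := by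
    rw [h2]; omega
  have h5 : p ∣ N + nn N t i := by rw [h4]; exact hpt.mul_left _
  exact (Nat.dvd_add_left h).1 h5

/-- for `v` prime to `t` there is an `i < v` with `v ∣ n_i` -/
lemma exists_i {N t v : ℕ} (ht : 0 < t) (hv : 0 < v) (hco : v.Coprime t) : ∃ i < v, v ∣ nn N t i := by
  have hex : ∃ j : ℕ, v ∣ nn N t 0 + j * t := by
    rcases Nat.lt_or_ge 1 v with h | h
    · obtain ⟨a, ha⟩ := Nat.exists_mul_mod_eq_one_of_coprime hco.symm h
      refine ⟨a * ((v - 1) * nn N t 0), ?_⟩
      have h3 : t * a ≡ 1 [MOD v] := by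
        have : (t * a) % v = 1 % v := by rw [ha.2, Nat.mod_eq_of_lt h]
        exact this
      have h4 : nn N t 0 + a * ((v - 1) * nn N t 0) * t ≡ nn N t 0 + 1 * ((v - 1) * nn N t 0) [MOD v] := by
        have : a * ((v - 1) * nn N t 0) * t = (t * a) * ((v - 1) * nn N t 0) := by ring
        rw [this]
        exact (h3.mul_right _).add_left _
      have h5 : nn N t 0 + 1 * ((v - 1) * nn N t 0) = v * nn N t 0 := by
        obtain ⟨w, rfl⟩ : ∃ w, v = w + 1 := ⟨v - 1, by omega⟩
        rw [Nat.add_sub_cancel]; ring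
      rw [h5] at h4
      apply Nat.dvd_of_mod_eq_zero
      rw [h4]
      exact Nat.mul_mod_right _ _
    · have : v = 1 := by omega
      exact ⟨0, by rw [this]; exact one_dvd _⟩
  obtain ⟨j, hj⟩ := hex
  refine ⟨j % v, Nat.mod_lt _ hv, ?_⟩
  have h1 := nn_add (N := N) ht 0 (j % v)
  rw [zero_add] at h1
  rw [h1]
  have h2 : nn N t 0 + j * t = (nn N t 0 + (j % v) * t) + v * ((j / v) * t) := by
    have := Nat.div_add_mod j v
    nth_rewrite 1 [← this]
    ring
  rw [h2] at hj
  exact (Nat.dvd_add_left (dvd_mul_right _ _)).1 hj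

/-- uniqueness modulo `v` -/
lemma i_congr {N t v i j : ℕ} (ht : 0 < t) (hco : v.Coprime t) (hij : i ≤ j) (hi : v ∣ nn N t i)
    (hj : v ∣ nn N t j) : v ∣ j - i := by
  obtain ⟨k, rfl⟩ := Nat.exists_eq_add_of_le hij
  rw [nn_add ht] at hj
  rw [Nat.add_sub_cancel_left]
  exact hco.dvd_of_dvd_mul_right ((Nat.dvd_add_right hi).1 hj)

/-- three different primes above `W / 4` have a product above `W ^ 3 / 64` -/
lemma three {W n : ℕ} (hn : 0 < n) (hW : 64 * n ≤ W ^ 3) (V : Finset ℕ)
    (hV : ∀ v ∈ V, v.Prime ∧ W < 4 * v ∧ v ∣ n) : V.card ≤ 2 := by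
  classical
  by_contra hcon
  push Not at hcon
  obtain ⟨V', hV', hc⟩ := Finset.exists_subset_card_eq (show 3 ≤ V.card from hcon)
  rw [Finset.card_eq_three] at hc
  obtain ⟨a, b, c, hab, hac, hbc, rfl⟩ := hc
  obtain ⟨ha1, ha2, ha3⟩ := hV a (hV' (by simp))
  obtain ⟨hb1, hb2, hb3⟩ := hV b (hV' (by simp))
  obtain ⟨hc1, hc2, hc3⟩ := hV c (hV' (by simp))
  have h1 : a * b ∣ n := ((Nat.coprime_primes ha1 hb1).2 hab).mul_dvd_of_dvd_of_dvd ha3 hb3
  have h2 : Nat.Coprime (a * b) c :=
    Nat.Coprime.mul_left ((Nat.coprime_primes ha1 hc1).2 hac) ((Nat.coprime_primes hb1 hc1).2 hbc)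
  have h3 : a * b * c ∣ n := h2.mul_dvd_of_dvd_of_dvd h1 hc3
  have h4 : a * b * c ≤ n := Nat.le_of_dvd hn h3
  have h5 : W ^ 3 < (4 * a) * (4 * b) * (4 * c) := by
    have e1 : W * W < (4 * a) * (4 * b) := Nat.mul_lt_mul'' ha2 hb2
    have e2 : W * W * W < (4 * a) * (4 * b) * (4 * c) := Nat.mul_lt_mul'' e1 hc2
    calc W ^ 3 = W * W * W := by ring
      _ < _ := e2
  have h6 : (4 * a) * (4 * b) * (4 * c) = 64 * (a * b * c) := by ring
  omega

/-- the primes in `(W / 4, W]` -/
def PW (W : ℕ) : Finset ℕ := (range (W + 1)).filter fun v => v.Prime ∧ W < 4 * v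

open Chebyshev in
/-- Chebyshev's bound for the primes in `(W / 4, W]` -/
lemma theta_PW (W : ℕ) (hW : 1 ≤ W) : Chebyshev.theta (W : ℝ) - Chebyshev.theta ((W : ℝ) / 4) ≤
    (PW W).card * Real.log W := by
  have h1 : Chebyshev.theta (W : ℝ) - Chebyshev.theta ((W : ℝ) / 4) ≤ ∑ v ∈ PW W, Real.log v := by
    rw [sub_le_iff_le_add]
    unfold Chebyshev.theta
    rw [← Finset.sum_union]
    · apply Finset.sum_le_sum_of_subset_of_nonneg
      · intro v hv
        rw [mem_filter, mem_Ioc, Nat.floor_natCast] at hv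
        rw [mem_union]
        by_cases h : W < 4 * v
        · left
          rw [PW, mem_filter, mem_range]
          exact ⟨by omega, hv.2, h⟩
        · right
          rw [mem_filter, mem_Ioc]
          refine ⟨⟨hv.1.1, ?_⟩, hv.2⟩
          apply Nat.le_floor
          have : ((4 * v : ℕ) : ℝ) ≤ W := by exact_mod_cast not_lt.1 h
          push_cast at this
          linarith
      · intro v _ _
        exact Real.log_natCast_nonneg v
    · rw [Finset.disjoint_left]
      intro v hv hv'
      rw [PW, mem_filter] at hv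
      rw [mem_filter, mem_Ioc] at hv'
      have h1 := Nat.floor_le (show (0 : ℝ) ≤ (W : ℝ) / 4 by positivity)
      have h2 : (v : ℝ) ≤ (⌊(W : ℝ) / 4⌋₊ : ℝ) := by exact_mod_cast hv'.1.2
      have h3 : (W : ℝ) < 4 * v := by exact_mod_cast hv.2.2
      linarith
  refine h1.trans ?_
  rw [← nsmul_eq_mul]
  apply Finset.sum_le_card_nsmul
  intro v hv
  rw [PW, mem_filter, mem_range] at hv
  apply Real.log_le_log
  · exact_mod_cast hv.2.1.pos
  · exact_mod_cast (by omega : v ≤ W)

lemma evt (ε : ℝ) (hε : 0 < ε) : ∃ W₀ : ℕ, ∀ W : ℕ, W₀ ≤ W → Real.log W ≤ ε * Real.sqrt W := by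
  have h1 := (isLittleO_log_rpow_atTop (r := 1 / 2) (by norm_num)).bound hε
  have h2 := tendsto_natCast_atTop_atTop.eventually h1
  rw [Filter.eventually_atTop] at h2
  obtain ⟨W₀, h⟩ := h2
  refine ⟨max W₀ 1, fun W hW => ?_⟩
  have h3 := h W ((le_max_left _ _).trans hW)
  have hW1 : (1 : ℝ) ≤ W := by exact_mod_cast (le_max_right _ _).trans hW
  rw [Real.norm_of_nonneg (Real.log_nonneg hW1), Real.norm_of_nonneg (by positivity)] at h3
  rw [Real.sqrt_eq_rpow]
  exact h3

/-- the number of primes in `(W / 4, W]` -/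
lemma card_PW : ∃ W₀ : ℕ, ∀ W : ℕ, W₀ ≤ W → 34 / 100 * (W : ℝ) ≤ (PW W).card * Real.log W := by
  obtain ⟨W₀, h⟩ := evt (1 / 1000) (by norm_num)
  refine ⟨max W₀ 4, fun W hW => ?_⟩
  have hW4 : 4 ≤ W := (le_max_right _ _).trans hW
  have hW4' : (4 : ℝ) ≤ W := by exact_mod_cast hW4
  have h1 := h W ((le_max_left _ _).trans hW)
  have h2 := theta_PW W (by omega)
  have h3 := Chebyshev.theta_ge W
  have h4 := Chebyshev.theta_le_log4_mul_x (x := (W : ℝ) / 4) (by positivity)
  have hs := Real.sq_sqrt (show (0 : ℝ) ≤ W by positivity)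
  have hs0 := Real.sqrt_nonneg (W : ℝ)
  have h5 : Real.log ((W : ℝ) + 1) ≤ 2 * Real.log W := by
    have : Real.log ((W : ℝ) ^ 2) = 2 * Real.log W := by
      rw [Real.log_pow]; norm_num
    rw [← this]
    apply Real.log_le_log (by positivity)
    nlinarith
  have hl4 : Real.log 4 = 2 * Real.log 2 := by
    have : (4 : ℝ) = 2 ^ 2 := by norm_num
    rw [this, Real.log_pow]; norm_num
  have hl2 := Real.log_two_gt_d9
  have hs2 : 2 ≤ Real.sqrt W := by
    rw [show (2 : ℝ) = Real.sqrt 4 by
      rw [show (4 : ℝ) = 2 ^ 2 by norm_num, Real.sqrt_sq (by norm_num)]]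
    exact Real.sqrt_le_sqrt hW4'
  have h6 : 2 * Real.sqrt W * Real.log W ≤ 2 * Real.sqrt W * (1 / 1000 * Real.sqrt W) :=
    mul_le_mul_of_nonneg_left h1 (by positivity)
  have h7 : 2 * Real.sqrt W * (1 / 1000 * Real.sqrt W) = 2 / 1000 * W := by
    linear_combination (2 / 1000) * hs
  have h8 : Real.sqrt W ≤ W := by nlinarith
  rw [hl4] at h4
  nlinarith

theorem main : S_Row := by
  classical
  obtain ⟨W₁, hcard⟩ := card_PW
  obtain ⟨W₂, hlog⟩ := evt (1 / 100) (by norm_num)
  refine ⟨max (max W₁ W₂) 16, fun N p m R t W hW hp hpN hN hR hRW hk hco ht1 ht2 h3c => ?_⟩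
  have hW1 := hcard W (((le_max_left _ _).trans (le_max_left _ _)).trans hW)
  have hW2 := hlog W (((le_max_right _ _).trans (le_max_left _ _)).trans hW)
  have hW16 : 16 ≤ W := (le_max_right _ _).trans hW
  have hW16' : (16 : ℝ) ≤ W := by exact_mod_cast hW16
  have ht0 : 2 ≤ t := by
    have : 2 * 1 * 16 ≤ 2 * R * W := Nat.mul_le_mul (Nat.mul_le_mul_left 2 hR) hW16
    omega
  have ht0' : 0 < t := by omega
  have hRW3 : 256 * R * W ^ 2 ≤ W ^ 3 := by
    calc 256 * R * W ^ 2 ≤ W * W ^ 2 := Nat.mul_le_mul_right _ hRW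
      _ = W ^ 3 := by ring
  -- the primes
  set V := (PW W).filter fun v => ¬ v ∣ N ∧ ¬ v ∣ t with hV
  have hVcard : (PW W).card ≤ V.card + (N.primeFactors.card + 2) := by
    have h1 : PW W ⊆ V ∪ (N.primeFactors ∪ (PW W).filter fun v => v ∣ t) := by
      intro v hv
      rw [mem_union, mem_union, hV, mem_filter, mem_filter]
      by_cases h : v ∣ N
      · right; left
        rw [PW, mem_filter] at hv
        exact Nat.mem_primeFactors.2 ⟨hv.2.1, h, hN⟩
      · by_cases h' : v ∣ t
        · right; right; exact ⟨hv, h'⟩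
        · left; exact ⟨hv, h, h'⟩
    have h2 : ((PW W).filter fun v => v ∣ t).card ≤ 2 := by
      apply three (W := W) ht0'
      · calc 64 * t ≤ 64 * (4 * R * W) := by omega
          _ = 256 * R * W := by ring
          _ ≤ 256 * R * W * W := Nat.le_mul_of_pos_right _ (by omega)
          _ = 256 * R * W ^ 2 := by ring
          _ ≤ W ^ 3 := hRW3
      · intro v hv
        rw [mem_filter, PW, mem_filter] at hv
        exact ⟨hv.1.2.1, hv.1.2.2, hv.2⟩
    calc (PW W).card ≤ _ := Finset.card_le_card h1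
      _ ≤ V.card + (N.primeFactors ∪ (PW W).filter fun v => v ∣ t).card := Finset.card_union_le _ _
      _ ≤ V.card + (N.primeFactors.card + ((PW W).filter fun v => v ∣ t).card) :=
          Nat.add_le_add_left (Finset.card_union_le _ _) _
      _ ≤ _ := by omega
  have hVmem : ∀ v ∈ V, v.Prime ∧ W < 4 * v ∧ v ≤ W ∧ ¬ v ∣ N ∧ ¬ v ∣ t := by
    intro v hv
    rw [hV, mem_filter, PW, mem_filter, mem_range] at hv
    exact ⟨hv.1.2.1, hv.1.2.2, by omega, hv.2.1, hv.2.2⟩
  have hex : ∀ v : ℕ, ∃ i : ℕ, v ∈ V → i < v ∧ v ∣ nn N t i := by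
    intro v
    by_cases hv : v ∈ V
    · obtain ⟨h1, h2, h3, h4, h5⟩ := hVmem v hv
      obtain ⟨i, hi1, hi2⟩ := exists_i (N := N) ht0' h1.pos ((Nat.Prime.coprime_iff_not_dvd h1).2 h5)
      exact ⟨i, fun _ => ⟨hi1, hi2⟩⟩
    · exact ⟨0, fun h => absurd h hv⟩
  choose f hf using hex
  have hfib : V.card ≤ 2 * (V.image f).card := by
    apply Finset.card_le_mul_card_image
    intro i hi
    obtain ⟨v₀, hv₀, rfl⟩ := mem_image.1 hi
    have hfW : f v₀ + 1 ≤ W := by
      have := (hf v₀ hv₀).1
      have := (hVmem v₀ hv₀).2.2.1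
      omega
    apply three (W := W) (nn_pos (N := N) ht0 hco (f v₀))
    · have h1 := nn_lt (N := N) ht0' (f v₀)
      have h2 : (f v₀ + 1) * t ≤ W * (4 * R * W) := Nat.mul_le_mul hfW ht2.le
      calc 64 * nn N t (f v₀) ≤ 64 * (W * (4 * R * W)) := by omega
        _ = 256 * R * W ^ 2 := by ring
        _ ≤ W ^ 3 := hRW3
    · intro v hv
      rw [mem_filter] at hv
      refine ⟨(hVmem v hv.1).1, (hVmem v hv.1).2.1, ?_⟩
      rw [← hv.2]
      exact (hf v hv.1).2
  -- the set
  set I := (V.image f).filter fun i => m = 1 ∨ ¬ p ∣ nn N t i with hI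
  refine ⟨I, ?_, ?_⟩
  · intro i hi
    rw [hI, mem_filter] at hi
    obtain ⟨hi1, hi2⟩ := hi
    obtain ⟨v, hv, rfl⟩ := mem_image.1 hi1
    obtain ⟨h1, h2, h3, h4, h5⟩ := hVmem v hv
    obtain ⟨h6, h7⟩ := hf v hv
    refine ⟨by omega, v, h1, h3, h6, (Nat.Prime.coprime_iff_not_dvd h1).2 h4, h7, ?_⟩
    rcases hi2 with h | h
    · exact Or.inl h
    · right
      intro h8
      exact h (h8.trans (Nat.div_dvd_of_dvd h7))
  · -- the removed elements
    have hlogpos : 0 < Real.log W := Real.log_pos (by linarith)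
    have hrem : ((V.image f).card : ℝ) ≤ I.card + (W / (24 * Real.log W) + 1) := by
      by_cases hm1 : m = 1
      · have : I = V.image f := by
          rw [hI]
          apply Finset.filter_true_of_mem
          intro i _
          exact Or.inl hm1
        rw [this]
        have : (0 : ℝ) ≤ W / (24 * Real.log W) + 1 := by positivity
        linarith
      by_cases hpt : p ∣ t
      · have : I = V.image f := by
          rw [hI]
          apply Finset.filter_true_of_mem
          intro i _
          exact Or.inr (nn_dvd ht0' hpt hpN i)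
        rw [this]
        have : (0 : ℝ) ≤ W / (24 * Real.log W) + 1 := by positivity
        linarith
      have hlogp : 24 * Real.log W ≤ p := by
        rcases h3c with h | h | h
        · exact absurd h hm1
        · exact absurd h hpt
        · exact h
      have hcop : p.Coprime t := (Nat.Prime.coprime_iff_not_dvd hp).2 hpt
      set J := (V.image f).filter fun i => ¬ (m = 1 ∨ ¬ p ∣ nn N t i) with hJ
      have h1 : (V.image f).card = I.card + J.card := by
        rw [hI, hJ, Finset.card_filter_add_card_filter_not]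
      have h2 : J.card ≤ W / p + 1 := by
        have h3 : (J.image fun i => i / p) ⊆ range (W / p + 1) := by
          intro x hx
          obtain ⟨i, hi, rfl⟩ := mem_image.1 hx
          rw [hJ, mem_filter] at hi
          obtain ⟨v, hv, rfl⟩ := mem_image.1 hi.1
          have h4 := (hf v hv).1
          have h5 := (hVmem v hv).2.2.1
          rw [mem_range]
          exact Nat.lt_succ_of_le (Nat.div_le_div_right (by omega))
        have h4 : (J.image fun i => i / p).card = J.card := by
          apply Finset.card_image_of_injOn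
          have key : ∀ i ∈ J, ∀ j ∈ J, i ≤ j → i / p = j / p → i = j := by
            intro i hi j hj hij hdiv
            rw [hJ, mem_filter] at hi hj
            have hi2 : p ∣ nn N t i := by
              by_contra h; exact hi.2 (Or.inr h)
            have hj2 : p ∣ nn N t j := by
              by_contra h; exact hj.2 (Or.inr h)
            have h5 := i_congr ht0' hcop hij hi2 hj2
            obtain ⟨k, hk⟩ := h5
            rcases Nat.eq_zero_or_pos k with h | h
            · rw [h, mul_zero] at hk; omega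
            · exfalso
              have h6 : p ≤ j - i := by rw [hk]; exact Nat.le_mul_of_pos_right _ h
              have h7 := Nat.div_add_mod i p
              have h8 := Nat.div_add_mod j p
              have h9 := Nat.mod_lt i hp.pos
              have h10 := Nat.mod_lt j hp.pos
              rw [hdiv] at h7
              have h11 : j % p = i % p := by
                have e : j = i + p * k := by omega
                rw [e, Nat.add_mul_mod_self_left]
              omega
          intro i hi j hj hdiv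
          rcases le_total i j with h | h
          · exact key i hi j hj h hdiv
          · exact (key j hj i hi h hdiv.symm).symm
        calc J.card = (J.image fun i => i / p).card := h4.symm
          _ ≤ (range (W / p + 1)).card := Finset.card_le_card h3
          _ = W / p + 1 := card_range _
      have h3 : ((W / p : ℕ) : ℝ) ≤ W / (24 * Real.log W) := by
        refine Nat.cast_div_le.trans ?_
        apply div_le_div_of_nonneg_left (by positivity) (by positivity) hlogp
      have h4 : (J.card : ℝ) ≤ ((W / p : ℕ) : ℝ) + 1 := by exact_mod_cast h2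
      rw [h1]
      push_cast
      linarith
    -- the final estimate
    have hs := Real.sq_sqrt (show (0 : ℝ) ≤ W by positivity)
    have hs0 := Real.sqrt_nonneg (W : ℝ)
    have hs4 : 4 ≤ Real.sqrt W := by
      rw [show (4 : ℝ) = Real.sqrt 16 by
        rw [show (16 : ℝ) = 4 ^ 2 by norm_num, Real.sqrt_sq (by norm_num)]]
      exact Real.sqrt_le_sqrt hW16'
    have hkk : (N.primeFactors.card : ℝ) + 1 ≤ Real.sqrt W := by
      apply Real.le_sqrt_of_sq_le
      exact_mod_cast hk
    have e1 : ((PW W).card : ℝ) ≤ V.card + (N.primeFactors.card + 2) := by exact_mod_cast hVcard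
    have e2 : (V.card : ℝ) ≤ 2 * (V.image f).card := by exact_mod_cast hfib
    have e3 : 34 / 100 * (W : ℝ) / Real.log W ≤ (PW W).card := by
      rw [div_le_iff₀ hlogpos]
      exact hW1
    have e4 : Real.sqrt W ≤ 1 / 100 * (W / Real.log W) := by
      rw [mul_div_assoc', le_div_iff₀ hlogpos]
      calc Real.sqrt W * Real.log W ≤ Real.sqrt W * (1 / 100 * Real.sqrt W) :=
            mul_le_mul_of_nonneg_left hW2 hs0
        _ = 1 / 100 * W := by linear_combination (1 / 100) * hs
    have e5 : (W : ℝ) / (10 * Real.log W) = 1 / 10 * (W / Real.log W) := by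
      field_simp
    have e6 : (W : ℝ) / (24 * Real.log W) = 1 / 24 * (W / Real.log W) := by
      field_simp
    have e7 : 34 / 100 * (W : ℝ) / Real.log W = 34 / 100 * (W / Real.log W) := by ring
    rw [e5]
    rw [e6] at hrem
    rw [e7] at e3
    set X := (W : ℝ) / Real.log W with hX
    linarith

end Pool.Agent.Helper85.GP.RowM
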