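import Pool.Agent.Helper85.GP.Def

/-!
# The good numbers in disjoint windows
-/

set_option autoImplicit false
set_option linter.unusedVariables false

namespace Pool.Agent.Helper85.GP.Tot

open Finset

/-- `⌈N / t⌉` -/
def cl (N t : ℕ) : ℕ := (N + t - 1) / t

lemma cl_ge {N t : ℕ} (ht : 0 < t) : N ≤ cl N t * t := by
  unfold cl
  have h1 := Nat.div_add_mod (N + t - 1) t
  have h2 := Nat.mod_lt (N + t - 1) ht
  rw [mul_comm] at h1
  omega

lemma cl_lt {N t : ℕ} (ht : 0 < t) : cl N t * t < N + t := by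
  unfold cl
  have h1 := Nat.div_add_mod (N + t - 1) t
  rw [mul_comm] at h1
  omega

/-- the windows of different `t` are disjoint -/
lemma window {N d T W t s : ℕ} (hT : 0 < T) (hNd : 4 * T ^ 2 * (W + 1) ≤ N * d) (ht : T ≤ t)
    (hts : t + d ≤ s) (hs : s < 2 * T) (hN : 0 < N) : cl N s + W ≤ cl N t := by
  by_contra hcon
  push Not at hcon
  have ht0 : 0 < t := by omega
  have hs0 : 0 < s := by omega
  have h1 := cl_ge (N := N) ht0
  have h2 := cl_lt (N := N) hs0
  obtain ⟨a, ha⟩ : ∃ a, a = cl N t := ⟨_, rfl⟩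
  obtain ⟨b, hb⟩ : ∃ b, b = cl N s := ⟨_, rfl⟩
  rw [← ha] at h1 hcon
  rw [← hb] at h2 hcon
  have hb1 : 1 ≤ b := by
    rcases Nat.eq_zero_or_pos b with h | h
    · exfalso
      have h3 := cl_ge (N := N) hs0
      rw [← hb, h, zero_mul] at h3
      omega
    · exact h
  obtain ⟨c, rfl⟩ : ∃ c, b = c + 1 := ⟨b - 1, by omega⟩
  have h3 : a ≤ c + W := by omega
  have h4 : c * s < N := by
    have : (c + 1) * s = c * s + s := by ring
    omega
  have h5 : N ≤ (c + W) * t := h1.trans (Nat.mul_le_mul_right _ h3)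
  -- multiply by `s`
  have h6 : N * s ≤ c * s * t + W * (t * s) := by
    calc N * s ≤ (c + W) * t * s := Nat.mul_le_mul_right _ h5
      _ = c * s * t + W * (t * s) := by ring
  have h7 : c * s * t ≤ N * t := Nat.mul_le_mul_right _ h4.le
  have h8 : N * (t + d) ≤ N * s := Nat.mul_le_mul_left _ hts
  have h9 : t * s ≤ 2 * T * (2 * T) := Nat.mul_le_mul (by omega) (by omega)
  have h10 : W * (t * s) ≤ W * (2 * T * (2 * T)) := Nat.mul_le_mul_left _ h9
  have h11 : 4 * T ^ 2 * (W + 1) = W * (2 * T * (2 * T)) + 4 * T ^ 2 := by ring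
  have h12 : N * (t + d) = N * t + N * d := by ring
  have h13 : 0 < 4 * T ^ 2 := by positivity
  omega

/-- the members of the windows are good -/
lemma good {N p m J R W d t i : ℕ} (hN : 2 ≤ N) (hJ : 1 ≤ J) (hR : 1 ≤ R) (hW : 1 ≤ W)
    (hd : 0 < d) (hdJ : 4 * d * J ≤ 2 * R * W) (hNd : 4 * (2 * R * W) ^ 2 * (W + 1) ≤ N * d)
    (htN : t.Coprime N) (ht : 2 * R * W ≤ t) (ht' : t < 4 * R * W) (h : Row N p m t W i) :
    Good N p m R (cl N t + i) := by
  obtain ⟨v, hv, hvW, hiv, hvN, hvd, hm⟩ := h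
  have hRW : 0 < R * W := Nat.mul_pos hR hW
  obtain ⟨T, hT⟩ : ∃ T, T = 2 * R * W := ⟨_, rfl⟩
  have hT' : T = 2 * (R * W) := by rw [hT]; ring
  rw [← hT] at hdJ hNd ht
  have ht'' : t < 2 * T := by
    have : 4 * R * W = 2 * T := by rw [hT]; ring
    omega
  have ht0 : 0 < t := by omega
  have hT0 : 0 < T := by omega
  have h1 := cl_ge (N := N) ht0
  have h2 := cl_lt (N := N) ht0
  have hv2 := hv.two_le
  -- `2 T W ≤ N`
  have h3 : 2 * T * W ≤ N := by
    have e1 : 4 * T ^ 2 * (W + 1) * (4 * J) ≤ N * d * (4 * J) := Nat.mul_le_mul_right _ hNd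
    have e2 : N * d * (4 * J) ≤ N * T := by
      calc N * d * (4 * J) = N * (4 * d * J) := by ring
        _ ≤ N * T := Nat.mul_le_mul_left _ hdJ
    have e3 : T * (2 * T * W) ≤ 4 * T ^ 2 * (W + 1) * (4 * J) := by
      calc T * (2 * T * W) = 2 * T ^ 2 * W := by ring
        _ ≤ 4 * T ^ 2 * (W + 1) := Nat.mul_le_mul (Nat.mul_le_mul_right _ (by norm_num)) (by omega)
        _ ≤ 4 * T ^ 2 * (W + 1) * (4 * J) := Nat.le_mul_of_pos_right _ (by omega)
    have e4 : T * (2 * T * W) ≤ T * N := by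
      rw [mul_comm T N]
      exact e3.trans (e1.trans e2)
    exact Nat.le_of_mul_le_mul_left e4 hT0
  obtain ⟨Q, hQ⟩ : ∃ Q, Q = cl N t + i := ⟨_, rfl⟩
  rw [← hQ]
  have hQt : Q * t = cl N t * t + i * t := by rw [hQ]; ring
  have h4 : N ≤ Q * t := by
    rw [hQt]
    exact h1.trans (Nat.le_add_right _ _)
  have h5 : (i + 1) * t ≤ v * t := Nat.mul_le_mul_right _ hiv
  have h6 : Q * t < N + v * t := by
    have e : (i + 1) * t = i * t + t := by ring
    rw [hQt]
    omega
  have h7 : v * t ≤ W * (2 * T) := Nat.mul_le_mul hvW ht''.le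
  have h8 : Q * t < 2 * N := by
    have e : W * (2 * T) = 2 * T * W := by ring
    omega
  have h9 : R * v * Q ≤ N := by
    have e1 : 2 * (R * v * Q) ≤ Q * t := by
      calc 2 * (R * v * Q) ≤ 2 * (R * W * Q) :=
            Nat.mul_le_mul_left _ (Nat.mul_le_mul_right _ (Nat.mul_le_mul_left _ hvW))
        _ = Q * T := by rw [hT']; ring
        _ ≤ Q * t := Nat.mul_le_mul_left _ ht
    omega
  have h10 : 0 < Q := by
    rcases Nat.eq_zero_or_pos Q with h | h
    · rw [h, zero_mul] at h4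
      omega
    · exact h
  have h11 : Q < N := by
    have e1 : 2 * Q ≤ R * v * Q := by
      calc 2 * Q ≤ v * Q := Nat.mul_le_mul_right _ hv2
        _ = 1 * v * Q := by ring
        _ ≤ R * v * Q := Nat.mul_le_mul_right _ (Nat.mul_le_mul_right _ hR)
    omega
  have hnn : nn N t i = Q * t - N := by
    rw [hQ]
    rfl
  rw [hnn] at hvd hm
  exact ⟨h10, h11, t, v, hv2, hvN, htN, h4, h8, hvd, h6, h9, hm⟩

theorem main : S_Tot := by
  classical
  intro N p m J R W d ρ hp hpN hN hJ hR hW hd hdJ hNd hρ H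
  have hJ1 : 1 ≤ J := by
    obtain ⟨n, h1, h2, -⟩ := hJ 0
    omega
  have hd0 : 0 < d := by
    rcases hd with rfl | rfl
    · exact one_pos
    · exact hp.pos
  have hdN : d.Coprime N := by
    rcases hd with rfl | rfl
    · exact Nat.coprime_one_left N
    · exact (Nat.Prime.coprime_iff_not_dvd hp).2 hpN
  have hRW : 0 < R * W := Nat.mul_pos hR hW
  obtain ⟨T, hT⟩ : ∃ T, T = 2 * R * W := ⟨_, rfl⟩
  have hT0 : 0 < T := by rw [hT, mul_assoc]; omega
  have h2T : 4 * R * W = 2 * T := by rw [hT]; ring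
  have hdJ' : 4 * d * J ≤ T := by rw [hT]; exact hdJ
  have hNd' : 4 * T ^ 2 * (W + 1) ≤ N * d := by rw [hT]; exact hNd
  -- the number of blocks
  obtain ⟨K, hK⟩ : ∃ K, K = (T + 2 * d * J - 1) / (2 * d * J) := ⟨_, rfl⟩
  have hdJ0 : 0 < 2 * d * J := by positivity
  have hK1 : T ≤ K * (2 * d * J) := by
    rw [hK]
    exact cl_ge hdJ0
  have hK2 : K * (2 * d * J) < T + 2 * d * J := by
    rw [hK]
    exact cl_lt hdJ0
  have hdJ1 : d ≤ d * J := Nat.le_mul_of_pos_right _ hJ1
  have hdT : cl T d * d < T + d := cl_lt hd0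
  have hdT' : T ≤ cl T d * d := cl_ge hd0
  have hfit : d * (cl T d + K * J) ≤ 2 * T := by
    have e1 : d * (cl T d + K * J) = cl T d * d + K * (d * J) := by ring
    have e2 : K * (2 * d * J) = 2 * (K * (d * J)) := by ring
    have e3 : 2 * d * J = 2 * (d * J) := by ring
    have e4 : 4 * d * J = 4 * (d * J) := by ring
    omega
  choose t' ht1 ht2 ht3 using fun k : ℕ => hJ (cl T d + k * J)
  have hmono : ∀ k l : ℕ, k < l → t' k + 1 ≤ t' l := by
    intro k l hkl
    have e1 := ht2 k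
    have e2 := ht1 l
    have e3 : (k + 1) * J ≤ l * J := Nat.mul_le_mul_right _ hkl
    have e4 : (k + 1) * J = k * J + J := by ring
    omega
  have hlo : ∀ k, T ≤ d * t' k := by
    intro k
    have e1 := ht1 k
    calc T ≤ cl T d * d := hdT'
      _ = d * cl T d := mul_comm _ _
      _ ≤ d * t' k := Nat.mul_le_mul_left _ (by omega)
  have hhi : ∀ k < K, d * t' k < 2 * T := by
    intro k hk
    have e1 := ht2 k
    have e3 : (k + 1) * J ≤ K * J := Nat.mul_le_mul_right _ hk
    have e4 : (k + 1) * J = k * J + J := by ring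
    calc d * t' k < d * (cl T d + K * J) := Nat.mul_lt_mul_of_pos_left (by omega) hd0
      _ ≤ 2 * T := hfit
  have hcop : ∀ k, (d * t' k).Coprime N := fun k => Nat.Coprime.mul_left hdN (ht3 k)
  have HI : ∀ k : ℕ, ∃ I : Finset ℕ, k < K →
      (∀ i ∈ I, i < W ∧ Row N p m (d * t' k) W i) ∧ ρ ≤ I.card := by
    intro k
    by_cases hk : k < K
    · obtain ⟨I, hI⟩ := H (d * t' k) (hcop k) (Dvd.intro _ rfl) (by rw [← hT]; exact hlo k)
        (by rw [h2T]; exact hhi k hk)
      exact ⟨I, fun _ => hI⟩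
    · exact ⟨∅, fun h => absurd h hk⟩
  choose I hI using HI
  let S : Finset ℕ := (range K).biUnion fun k => (I k).image fun i => cl N (d * t' k) + i
  have hwin : ∀ k l : ℕ, k < l → l < K → cl N (d * t' l) + W ≤ cl N (d * t' k) := by
    intro k l hkl hl
    refine window (d := d) hT0 hNd' (hlo k) ?_ (hhi l hl) (by omega)
    calc d * t' k + d = d * (t' k + 1) := by ring
      _ ≤ d * t' l := Nat.mul_le_mul_left _ (hmono k l hkl)
  refine ⟨S, ?_, ?_⟩
  · intro Q hQ
    rw [mem_biUnion] at hQ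
    obtain ⟨k, hk, hQ⟩ := hQ
    rw [mem_range] at hk
    rw [mem_image] at hQ
    obtain ⟨i, hi, rfl⟩ := hQ
    exact good (d := d) hN hJ1 hR hW hd0 hdJ hNd (hcop k) (by rw [← hT]; exact hlo k)
      (by rw [h2T]; exact hhi k hk) ((hI k hk).1 i hi).2
  · have hcard : S.card = ∑ k ∈ range K, (I k).card := by
      rw [card_biUnion]
      · refine sum_congr rfl fun k _ => ?_
        exact card_image_of_injective _ fun a b h => Nat.add_left_cancel h
      · have key : ∀ k l : ℕ, k < l → l < K →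
            Disjoint ((I k).image fun i => cl N (d * t' k) + i)
              ((I l).image fun i => cl N (d * t' l) + i) := by
          intro k l hkl hl
          rw [disjoint_left]
          intro Q h1 h2
          rw [mem_image] at h1 h2
          obtain ⟨i, hi, rfl⟩ := h1
          obtain ⟨j, hj, h3⟩ := h2
          have e1 := hwin k l hkl hl
          have e2 := ((hI l hl).1 j hj).1
          omega
        intro k hk l hl hkl
        have hk' : k < K := mem_range.1 hk
        have hl' : l < K := mem_range.1 hl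
        rcases lt_or_gt_of_ne hkl with h | h
        · exact key k l h hl'
        · exact (key l k h hk').symm
    rw [hcard]
    push_cast
    have h1 : (K : ℝ) * ρ ≤ ∑ k ∈ range K, ((I k).card : ℝ) := by
      calc (K : ℝ) * ρ = ∑ _k ∈ range K, ρ := by rw [sum_const, card_range, nsmul_eq_mul]
        _ ≤ ∑ k ∈ range K, ((I k).card : ℝ) :=
          sum_le_sum fun k hk => (hI k (mem_range.1 hk)).2
    refine le_trans (mul_le_mul_of_nonneg_right ?_ hρ) h1
    have hdJr : (0 : ℝ) < d * J := by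
      have : (0 : ℝ) < d := by exact_mod_cast hd0
      have : (0 : ℝ) < J := by exact_mod_cast hJ1
      positivity
    rw [div_le_iff₀ hdJr]
    have h2 : (T : ℝ) ≤ K * (2 * d * J) := by exact_mod_cast hK1
    have h3 : (T : ℝ) = 2 * R * W := by rw [hT]; push_cast; ring
    rw [h3] at h2
    linarith

end Pool.Agent.Helper85.GP.Tot
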